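import Pool.Agent.N384.VF.Pol
import Pool.Agent.N384.VF.Ex
import Pool.Agent.N603.TH.Vhs

/-!
# MP_0704bf_ag: Zilber-Pink for variations of Hodge structure in families with several parameters which are in
# families of vectors of residues

**The variations.** Let `P` be a system of polynomials in `y_1, …, y_N`, and `A_i`, `B_i` (`i ≤ n`)
polynomials in `y_1, …, y_N`, with coefficients in `ℤ[t_0, …, t_s]`. For integers `t_0, …, t_s` let
`S_t ⊂ ℂ^N` be the set of the points `y` with `P(y) = 0` and `4 A_i(y)³ + 27 B_i(y)² ≠ 0` for all `i`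
(`OnS`). Over `S_t` there are the elliptic curves `E_i : y² = x³ + A_i x + B_i` and the polarizable
variation of Hodge structure `V_t = ⊕ R¹π_{i*} ℤ`. Its period map `Φ` to `Y(1)^n = ℂ^n` is given by the
`j`-invariants (`period`); `image` is `Φ(S_t)`, and `NoAtypicalHodge` says that every irreducible
constructible subset `W` of `Φ(S_t) ∩ Z`, `Z` a special subvariety, satisfies
`dim W + (n - m) ≤ dim Z`, so that, if `dim Φ(S_t) = m`, there is no atypical special subvariety of
`S_t` for `V_t`, except possibly those contained in the singular locus `S^sing`. (These are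
definitions of the starting file `TropicalWeierstrassFamilies`, with `0` torus coordinates; constants of
`Z` are special points or integral over the ring generated by a finite set `Γ` of algebraic numbers.)

**The condition.** Let `Q` be a finite system of polynomials which vanish at all points `(Φ(y), y)`,
`y ∈ S_t`, with coefficients in `ℤ[t_0, …, t_s]`. Let `f_1, …, f_M` be nonzero polynomials in
`t_0, …, t_s`, such that each coefficient of `Q` is `f_l ^ e_l · g` with `g ∣ G_l`, and the
hypersurface `f_l = 0` has many points outside of `G_l = 0` modulo primes (`Rich`): either `f_l` is of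
degree one in one of the variables and coprime to `G_l` (`LinearIn`; for instance if `f_l = 0` is a
hyperplane), or, more generally, the sum over all primes `p` of the number of these points modulo `p`,
divided by `p ^ (s + 1)`, diverges. The tropicalization along `f_l` is the set of the `w` in
`(ℚ ∪ {∞})^(n + N)` such that for every polynomial of the system the minimum of the numbers
`e_l (coefficient) + β · w` is attained at two different exponents `β` or is infinite (`TropAt`). The
condition `GenericOrders` says that for every type of special subvarieties of `Y(1)^n` of dimension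
less than `n - m` there is an `l` such that no point of the tropicalization along `f_l` is compatible
with the type.

From Mathlib: `ZMod.stdAddChar`: the additive character `j ↦ exp (2 π i j / q)` of the integers modulo `q`; `ZMod.val`: the
least residue; `Fintype.piFinset`: the product of finite sets.

Proof. A family of vectors of residues modulo `q` with small Fourier coefficients is uniformly distributed
in the residue classes modulo all integers up to a power of `Z` (`N384/VF`: completion in each coordinate). By Turan's sieve (`Pool.Agent.N666.TM`), for almost all members `t` of a family the integer `f(t) ≠ 0` has a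
prime divisor `p > D` which does not divide `G(t)`; for polynomials of degree one in a variable the number of the points of
`f = 0` outside `G = 0` modulo `p` is estimated from below by the Schwartz-Zippel lemma (`N603.TH`). There are countably many
`(f, G, D)`, and a diagonal argument gives one exceptional set (`N384/VF/Uni`). At places of `ℂ` above `p` the values of the
coefficients of `Q` are `e_l · v(f_l(t))`, and the tropical criterion of the starting library (`R424.TG`) applies. Examples: products, the lemma of Ajtai, Iwaniec, Komlos, Pintz and Szemeredi on quotients by small primes, the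
Stepanov type lemma of Heath-Brown and Konyagin for subgroups (library `H435R3.HBK`, `N825.FC`), and Weyl sums without
losses (library `H373R2.NB`).
-/

set_option autoImplicit false

namespace Pool.Agent.Results.MP_0704bf_ag.ResidueVectors

open MvPolynomial Pool.Agent.R424.TG

/-- The Fourier coefficients of the vectors of residues `y i`, `i ∈ s`, modulo `q` at the nonzero frequencies are at most
`η` times the number of the vectors: `|∑ i ∈ s, e(h·y_i / q)| ≤ η |s|` for all vectors `h ≠ 0` modulo `q`. -/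
def Flat {τ ι : Type} [Fintype ι] (q : ℕ) [NeZero q] (η : ℝ) (s : Finset τ) (y : τ → ι → ZMod q) : Prop :=
  ∀ h : ι → ZMod q, h ≠ 0 → ‖∑ i ∈ s, (ZMod.stdAddChar (∑ j, h j * y i j) : ℂ)‖ ≤ η * s.card

/-- The same for residues (vectors with one coordinate). -/
def Flat1 {τ : Type} (q : ℕ) [NeZero q] (η : ℝ) (s : Finset τ) (y : τ → ZMod q) : Prop :=
  ∀ h : ZMod q, h ≠ 0 → ‖∑ i ∈ s, (ZMod.stdAddChar (h * y i) : ℂ)‖ ≤ η * s.card

/-- `Z ≤ q`, and the Fourier coefficients at the nonzero frequencies are at most `|s| / (Z (42 + 3 log q) ^ r)`, where `r` is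
the number of the coordinates. -/
def Small {τ ι : Type} [Fintype ι] (q : ℕ) [NeZero q] (Z : ℝ) (s : Finset τ) (y : τ → ι → ZMod q) : Prop :=
  Z ≤ q ∧ Flat q (1 / (Z * (42 + 3 * Real.log q) ^ Fintype.card ι)) s y

/-- The integral vector `c₀ + y_i`, with the least residues `0 ≤ y_i < q`. -/
def vec {τ ι : Type} {q : ℕ} (y : τ → ι → ZMod q) (c₀ : ι → ℤ) (i : τ) (j : ι) : ℤ := c₀ j + ((y i j).val : ℕ)

/-- The value of a polynomial in the parameters at the integral point `t`. -/
noncomputable def valueAt {s : ℕ} (t : Fin (s + 1) → ℤ) : MvPolynomial (Fin (s + 1)) ℤ →+* ℂ :=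
  (Int.castRingHom ℂ).comp (eval t)

/-- `f` is of degree one in the variable `i`, and coprime to `G` with respect to this variable. -/
def LinearIn {s : ℕ} (i : Fin (s + 1)) (f G : MvPolynomial (Fin (s + 1)) ℤ) : Prop :=
  ∃ a b u v R : MvPolynomial (Fin (s + 1)) ℤ, i ∉ a.vars ∧ i ∉ b.vars ∧ i ∉ R.vars ∧ a ≠ 0 ∧
    R ≠ 0 ∧ f = a * X i + b ∧ u * f + v * G = R

/-- The hypersurface `f = 0` has many points outside of `G = 0` modulo primes: `f` is of degree one in
a variable and coprime to `G`, or the sum over the primes `p` of the densities of the points of `f = 0`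
outside of `G = 0` modulo `p` diverges. -/
def Rich {s : ℕ} (f G : MvPolynomial (Fin (s + 1)) ℤ) : Prop :=
  (∃ i, LinearIn i f G) ∨ (f ≠ 0 ∧ ¬ Summable fun p : ℕ => if p.Prime then
    ({v : Fin (s + 1) → ZMod p | aeval v f = 0 ∧ aeval v G ≠ 0}.ncard : ℝ) / (p : ℝ) ^ (s + 1) else 0)

/-- Every family as above over `ℤ[t_0, …, t_s]` with the condition (all `n`, `N`, `m`, all bases and all elliptic curves, all
`Γ`): for all sufficiently large `Z` all members at integral points outside of `E Z` have no atypical special subvarieties. -/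
def AllFamilies (s : ℕ) (E : ℝ → Set (Fin (s + 1) → ℤ)) : Prop :=
  ∀ (n N m M : ℕ) (κ₀ κ : Type) [Finite κ]
    (P : κ₀ → MvPolynomial (Fin N) (MvPolynomial (Fin (s + 1)) ℤ))
    (A B : Fin n → MvPolynomial (Fin N) (MvPolynomial (Fin (s + 1)) ℤ))
    (Q : κ → MvPolynomial ((Fin n ⊕ Fin 0) ⊕ Fin N) (MvPolynomial (Fin (s + 1)) ℤ))
    (_ : ∀ (t : Fin (s + 1) → ℤ) (y : Fin N → ℂ),
      OnS (valueAt t) P A B (fun j : Fin 0 => j.elim0) y → ∀ q,
        eval₂ (valueAt t)
          (Sum.elim (period (valueAt t) A B (fun j : Fin 0 => j.elim0) y) y) (Q q) = 0)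
    (f G : Fin M → MvPolynomial (Fin (s + 1)) ℤ) (_ : ∀ l, Rich (f l) (G l))
    (e : Fin M → κ → (((Fin n ⊕ Fin 0) ⊕ Fin N) →₀ ℕ) → ℕ)
    (_ : ∀ l q, ∀ β ∈ (Q q).support, ∃ g, (Q q).coeff β = f l ^ e l q β * g ∧ g ∣ G l)
    (_ : GenericOrders m (fun q => (Q q).support) e)
    (Γ : Finset ℂ) (_ : ∀ γ ∈ Γ, IsAlgebraic ℚ γ) (K : Subfield ℂ) [Countable K]
    (_ : ∀ γ ∈ Γ, γ ∈ K),
    ∃ Z₁ : ℕ, ∀ Z : ℝ, Z₁ ≤ Z → ∀ t : Fin (s + 1) → ℤ, t ∉ E Z →
      NoAtypicalHodge (algebraMap (Algebra.adjoin ℤ (Γ : Set ℂ)) ℂ) K m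
        (image (valueAt t) P A B fun j : Fin 0 => j.elim0)

theorem main (s : ℕ) : ∃ (η : ℝ → ℝ) (E : ℝ → Set (Fin (s + 1) → ℤ)), Filter.Tendsto η Filter.atTop (nhds 0) ∧
    (∀ (τ : Type) (q : ℕ) [NeZero q] (S : Finset τ) (y : τ → Fin (s + 1) → ZMod q) (Z : ℝ), Small q Z S y →
      ∀ c₀ : Fin (s + 1) → ℤ, ({i : τ | i ∈ S ∧ vec y c₀ i ∈ E Z}.ncard : ℝ) ≤ η Z * S.card) ∧ AllFamilies s E := by
  obtain ⟨η, E, e1, e2, e3⟩ := Pool.Agent.N384.VF.pol_uniform (s + 1)
  refine ⟨η, E, e1, fun τ q _ S y Z h c₀ => e2 τ q S y Z ⟨h.1, h.2⟩ c₀, ?_⟩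
  intro n N m M κ₀ κ _ P A B Q hQ f G hf e he hgen Γ hΓ K _ hΓK
  obtain ⟨D, hD⟩ := Pool.Agent.N603.TH.local_member K Q f G e he hgen Γ hΓ hΓK
  have hf' : ∀ l, f l ≠ 0 ∧ Pool.Agent.N603.TH.Divergent (f l) (G l) := by
    intro l
    rcases hf l with ⟨i, hi⟩ | hi
    · exact ⟨Pool.Agent.N603.TH.linear_ne_zero hi, Pool.Agent.N603.TH.divergent_linear hi⟩
    · exact hi
  choose Z₁ hZ₁ using fun l : Fin M => e3 (f l) (G l) D (hf' l).1 (hf' l).2
  refine ⟨∑ l, Z₁ l, fun Z hZ t ht => ?_⟩
  have h1 := hD t fun l => hZ₁ l Z (le_trans (Nat.cast_le.2 (Finset.single_le_sum (f := Z₁)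
    (fun _ _ => Nat.zero_le _) (Finset.mem_univ l))) hZ) t ht
  exact noAtypicalHodge_of h1 (Pool.Agent.N603.TH.image_sub t P A B _ Q (hQ t))

/-- **(1)** For every `s` there are a function `η(Z) → 0` (`Z → ∞`) and sets `E_Z ⊂ ℤ ^ (s + 1)` such that for all families of
vectors `y_i`, `i ∈ S`, of `s + 1` residues modulo any `q` with Fourier coefficients at most `|S| / (Z (42 + 3 log q) ^ (s + 1))`
at all nonzero frequencies, where `Z ≤ q`, and for all integral vectors `c₀` at most `η(Z) |S|` of the vectors `c₀ + y_i` are in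
`E_Z`; and for ALL families over `ℤ[t_0, …, t_s]` as above with the condition there is `Z₁` such that for `Z ≥ Z₁` all members
outside `E_Z` have no atypical special subvarieties in the above sense.

**(2)** Products: if the residues `y_j(t)`, `t ∈ s_j`, have Fourier coefficients at most `η |s_j|` for each coordinate `j`, then
the product family of vectors `(y_j(g_j))_j`, `g_j ∈ s_j`, has Fourier coefficients at most `η` times the number of its members.

**(3)** Families of residues modulo primes `p` with Fourier coefficients at most `|s| / K`, `K ≥ 1` arbitrary: the quotients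
`j / r` of the integers `0 ≤ j < S` by the primes `r ≤ R`, if `K log ^ 4 p ≤ R < p` and `R ^ 2 ≤ S` (and `p` is large); the cosets
of all subgroups of the multiplicative group of an order of at least `5 p ^ (3/8) K ^ 3`; the residues `a b + g(a) + k(b)`,
`a ∈ A`, `b ∈ B`, for arbitrary sets with `|A| |B| ≥ p K ^ 2` and arbitrary functions `g` and `k`.

**(4)** Polynomial curves: for `1 ≤ d ≤ D` there is `C` such that for all primes `p` and all integral polynomials `f_j` of
pairwise distinct degrees between `d` and `D` whose leading coefficients are not divisible by `p`, the vectors `(f_j(n))_j`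
modulo `p`, `0 ≤ n < x`, have Fourier coefficients at most `x / K` for all `K ≥ 1` with `C K ^ C ≤ p` and
`C K ^ C p ≤ x ^ d`. (So there are such families with only about `p ^ (1 / d)` members.) -/
theorem result :
    (∀ s : ℕ, ∃ (η : ℝ → ℝ) (E : ℝ → Set (Fin (s + 1) → ℤ)), Filter.Tendsto η Filter.atTop (nhds 0) ∧
      (∀ (τ : Type) (q : ℕ) [NeZero q] (S : Finset τ) (y : τ → Fin (s + 1) → ZMod q) (Z : ℝ), Small q Z S y →
        ∀ c₀ : Fin (s + 1) → ℤ, ({i : τ | i ∈ S ∧ vec y c₀ i ∈ E Z}.ncard : ℝ) ≤ η Z * S.card) ∧ AllFamilies s E) ∧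
    (∀ (ι : Type) [Fintype ι] [DecidableEq ι] (q : ℕ) [NeZero q] (η : ℝ) (τ : Type) (s : ι → Finset τ) (y : ι → τ → ZMod q),
      (∀ j, Flat1 q η (s j) (y j)) → Flat q η (Fintype.piFinset s) (fun g j => y j (g j))) ∧
    (∃ P₀ : ℕ, ∀ p : ℕ, P₀ ≤ p → ∀ [Fact p.Prime] (K : ℝ), 1 ≤ K →
      (∀ R S : ℕ, K * Real.log p ^ 4 ≤ R → R < p → R ^ 2 ≤ S →
        Flat1 p (1 / K) (((Finset.Icc 1 R).filter Nat.Prime) ×ˢ Finset.range S)
          (fun z => ((z.2 : ℕ) : ZMod p) * ((z.1 : ℕ) : ZMod p)⁻¹)) ∧
      (∀ (H : Subgroup (ZMod p)ˣ) (s : Finset (ZMod p)ˣ), (∀ u, u ∈ s ↔ u ∈ H) →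
        5 * (p : ℝ) ^ (3 / 8 : ℝ) * K ^ 3 ≤ s.card → ∀ x : ZMod p, x ≠ 0 → Flat1 p (1 / K) s (fun u => x * (u : ZMod p))) ∧
      (∀ (A B : Finset (ZMod p)) (g k : ZMod p → ZMod p), (p : ℝ) * K ^ 2 ≤ A.card * B.card →
        Flat1 p (1 / K) (A ×ˢ B) (fun z => z.1 * z.2 + g z.1 + k z.2))) ∧
    (∀ d D : ℕ, 1 ≤ d → ∃ C : ℕ, ∀ (ι : Type) [Fintype ι] (p : ℕ) [Fact p.Prime] (f : ι → Polynomial ℤ),
      (∀ j, d ≤ (f j).natDegree ∧ (f j).natDegree ≤ D ∧ ¬ (p : ℤ) ∣ (f j).leadingCoeff) →
      Function.Injective (fun j => (f j).natDegree) → ∀ K : ℝ, 1 ≤ K → C * K ^ C ≤ p → ∀ x : ℕ,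
      C * K ^ C * p ≤ (x : ℝ) ^ d → Flat p (1 / K) (Finset.range x) (fun n j => (((f j).eval (n : ℤ) : ℤ) : ZMod p))) := by
  refine ⟨main, ⟨fun ι _ _ q _ η τ s y h => Pool.Agent.N384.VF.flat_pi q η s y h, ?_,
    fun d D hd => Pool.Agent.N384.VF.flat_poly d D hd⟩⟩
  obtain ⟨P₀, h0⟩ := Pool.Agent.N384.MQ.flatK_quot
  exact ⟨P₀, fun p hp _ K hK => ⟨fun R S => h0 p hp K hK R S,
    fun H s hs hc x hx => Pool.Agent.N384.MQ.flatK_coset p H s hs K hK hc x hx,
    fun A B g k hAB => Pool.Agent.N384.MQ.flatK_prod p A B g k K hK hAB⟩⟩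

end Pool.Agent.Results.MP_0704bf_ag.ResidueVectors
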