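import Pool.Agent.N384.MQ.Gold
import Pool.Agent.N384.MQ.Ex
import Pool.Agent.N384.MQ.Quot
import Pool.Agent.W93.PG7
import Pool.Agent.H560R3.GB.Defs

/-!
# Goldbach representations in primorial intervals near residues with small Fourier coefficients

Definitions used (starting file `Pool.Agent.H560R3.GB.Defs`): `sing m`: the singular series
`2 C₂ ∏_{p ∣ m, p > 2} (p - 1) / (p - 2)`, where `C₂` is the twin prime constant `∏_{p > 2} (1 - 1 / (p - 1) ^ 2)`.
From Mathlib: `ZMod.stdAddChar`: the additive character `j ↦ exp (2 π i j / q)` of the integers modulo `q`; `ZMod.val`: the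
least residue.

Method: a family of residues modulo `q` with small Fourier coefficients has small exponential sums at all real
frequencies which are not close to integers, and its least residues are not concentrated on short intervals. The passage
from such exponential sums to Goldbach representations in windows is from the starting files (`Pool.Agent.W93`, `Pool.Agent.TH872`),
and from `Pool.Agent.N625.DY` (helper625). The fixed exponent `V` comes from a compactness argument. Examples: a lemma of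
Ajtai, Iwaniec, Komlos, Pintz and Szemeredi on quotients by small primes, the Stepanov type lemma of Heath-Brown and
Konyagin for subgroups (library `H435R3.HBK`, `N825.FC`), and Weyl sums without losses (library `H373R2.NB`).
-/

set_option autoImplicit false

namespace Pool.Agent.Results.MP_484fb8_nt.ResidueFamilies

open Finset Filter Pool.Agent.H560R3.GB

/-- The Fourier coefficients of the residues `y i`, `i ∈ s`, modulo `q` at the nonzero frequencies are at most
`η` times the number of the residues: `|∑ i ∈ s, e(h y_i / q)| ≤ η |s|` for all `h ≠ 0` modulo `q`. -/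
def Flat {ι : Type} (q : ℕ) [NeZero q] (η : ℝ) (s : Finset ι) (y : ι → ZMod q) : Prop :=
  ∀ h : ZMod q, h ≠ 0 → ‖∑ i ∈ s, (ZMod.stdAddChar (h * y i) : ℂ)‖ ≤ η * s.card

/-- `#(n)`: the product of the first `n` primes. -/
noncomputable def P (n : ℕ) : ℕ := ∏ i ∈ range n, Nat.nth Nat.Prime i

/-- The number of primes `p` in the `n`-th primorial interval such that `m - p` is a prime which lies in the
`n`-th or in the `n + 1`-st primorial interval. -/
noncomputable def R (n m : ℕ) : ℕ :=
  ((Icc (P (n - 1) + 1) (P n + 1)).filter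
    (fun p => p.Prime ∧ (m - p).Prime ∧ P (n - 1) + 1 ≤ m - p ∧ m - p ≤ P (n + 1) + 1)).card

/-- The number of primes `p` with `y₁ < p ≤ y₂` such that `m - p` is a prime. -/
def cnt (m y₁ y₂ : ℕ) : ℕ := ((Ioc y₁ y₂).filter (fun p => p.Prime ∧ (m - p).Prime)).card

/-- If `m` belongs to the `n + 1`-st primorial interval (`n ≥ 1`), then (1) `m = p + q` where `p` is a prime in the
`n`-th primorial interval and `q` is a prime in the `n`-th or in the `n + 1`-st one; (2) up to a relative
error of at most `ε`, the number of these representations is `sing m * #(n) / log ^ 2 m`; (3) in every window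
`(y₁, y₂]` of `(0, #(n)]` of a length of at least `#(n) / log ^ W m` the number of the primes `p` with `m - p` prime
is `sing m * (y₂ - y₁) / log ^ 2 m`, up to a relative error of at most `ε`. -/
def Holds (ε : ℝ) (W m : ℕ) : Prop :=
  ∀ n : ℕ, 1 ≤ n → P n + 1 ≤ m → m ≤ P (n + 1) + 1 →
    (∃ p q : ℕ, p.Prime ∧ q.Prime ∧ m = p + q ∧ P (n - 1) + 1 ≤ p ∧ p ≤ P n + 1 ∧ P (n - 1) + 1 ≤ q ∧ q ≤ P (n + 1) + 1) ∧
    |(R n m : ℝ) - sing m * P n / Real.log m ^ 2| ≤ ε * (sing m * P n / Real.log m ^ 2) ∧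
    ∀ y₁ y₂ : ℕ, y₁ < y₂ → y₂ ≤ P n → (P n : ℝ) / Real.log m ^ W ≤ (y₂ : ℝ) - y₁ →
      |(cnt m y₁ y₂ : ℝ) - sing m * ((y₂ : ℝ) - y₁) / Real.log m ^ 2| ≤
        ε * (sing m * ((y₂ : ℝ) - y₁) / Real.log m ^ 2)

lemma next_le : ∃ m₀ : ℕ, ∀ m : ℕ, m₀ ≤ m → 6 ≤ Real.log m ∧ ∀ n : ℕ, P n + 1 ≤ m → m ≤ P (n + 1) + 1 →
    (m : ℝ) ≤ P n * Real.log m ^ 2 := by
  obtain ⟨n0, h0⟩ := Pool.Agent.W93.PG.next_prime
  obtain ⟨m1, h1⟩ := Pool.Agent.H373R2.T7.ev_L' 6
  refine ⟨P (n0 + 1) + m1 + 3, fun m hm => ?_⟩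
  have hL6 : 6 ≤ Real.log m := h1 m (by omega)
  refine ⟨hL6, fun n h2 h3 => ?_⟩
  have hmono : ∀ i j : ℕ, i ≤ j → P i ≤ P j := fun i j hij => Pool.Agent.W93.PG.PR_mono hij
  have hn : n0 ≤ n := by
    by_contra hcon
    have := hmono (n + 1) (n0 + 1) (by omega)
    omega
  have h4 := h0 n hn
  have hP1 : 1 ≤ P n := Pool.Agent.W93.PG.PR_pos n
  have hP : (1 : ℝ) ≤ P n := by exact_mod_cast hP1
  have hPR : (Pool.Agent.W93.PG.PR n : ℝ) = P n := rfl
  rw [hPR] at h4
  have h5 : Real.log (P n) ≤ Real.log m := Real.log_le_log (by linarith) (by exact_mod_cast (by omega : P n ≤ m))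
  have h6 : (P (n + 1) : ℝ) = P n * Nat.nth Nat.Prime n := by
    have h7 := Pool.Agent.W93.PG.PR_succ n
    exact_mod_cast h7
  have h8 : (m : ℝ) ≤ P (n + 1) + 1 := by exact_mod_cast h3
  calc (m : ℝ) ≤ P n * Nat.nth Nat.Prime n + 1 := by rw [← h6]; exact h8
    _ ≤ P n * (4 * Real.log m + 1) + P n := by
        apply add_le_add _ hP
        apply mul_le_mul_of_nonneg_left _ (by linarith)
        linarith
    _ = P n * (4 * Real.log m + 2) := by ring
    _ ≤ P n * Real.log m ^ 2 := by
        apply mul_le_mul_of_nonneg_left _ (by linarith)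
        nlinarith

theorem holds_of (ε : ℝ) (hε : 0 < ε) (W : ℕ) : ∃ m₀ : ℕ, ∀ m : ℕ, m₀ ≤ m → 2 ∣ m →
    Pool.Agent.W93.PG.WinP (min ε (1 / 2) / 4) (W + 2) m → Holds ε W m := by
  obtain ⟨m₀, h0⟩ := Pool.Agent.W93.PG.reps_of_win (min ε (1 / 2)) (lt_min hε (by norm_num))
    ((min_le_right _ _).trans (by norm_num))
  obtain ⟨m₁, h1⟩ := next_le
  refine ⟨m₀ + m₁ + 3, ?_⟩
  intro m hm _ hwin n hn h2 h3
  obtain ⟨hL6, hnext⟩ := h1 m (by omega)
  have hL1 : 1 ≤ Real.log m := by linarith
  have hlog : 0 < Real.log m := by linarith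
  have hm0 : (3 : ℝ) ≤ m := by exact_mod_cast (by omega : 3 ≤ m)
  have hwin2 : Pool.Agent.W93.PG.WinP (min ε (1 / 2) / 4) 2 m := by
    intro y₁ y₂ k1 k2 k3
    refine hwin y₁ y₂ k1 k2 (le_trans ?_ k3)
    exact div_le_div_of_nonneg_left (by linarith) (by positivity) (pow_le_pow_right₀ hL1 (by omega))
  have h4 := h0 m (by omega) hwin2 n hn h2 h3
  have hs := Pool.Agent.W93.GB.one_le_sing m
  have hP : (0 : ℝ) < P n := by exact_mod_cast Pool.Agent.W93.PG.PR_pos n
  have hmain : 0 < sing m * P n / Real.log m ^ 2 := by positivity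
  have hR : R n m = Pool.Agent.W93.PG.reps n m := rfl
  have hPR : Pool.Agent.W93.PG.PR n = P n := rfl
  rw [← hR, hPR] at h4
  have h5 : |(R n m : ℝ) - sing m * P n / Real.log m ^ 2| ≤ ε * (sing m * P n / Real.log m ^ 2) :=
    h4.trans (mul_le_mul_of_nonneg_right (min_le_left _ _) hmain.le)
  have h6 : |(R n m : ℝ) - sing m * P n / Real.log m ^ 2| ≤ 1 / 2 * (sing m * P n / Real.log m ^ 2) :=
    h4.trans (mul_le_mul_of_nonneg_right (min_le_right _ _) hmain.le)
  refine ⟨?_, h5, ?_⟩
  · have h7 : (0 : ℝ) < R n m := by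
      rw [abs_le] at h6
      linarith [h6.1]
    have h8 : 0 < R n m := by exact_mod_cast h7
    unfold R at h8
    rw [card_pos] at h8
    obtain ⟨p, hp⟩ := h8
    rw [mem_filter, mem_Icc] at hp
    obtain ⟨⟨p1, p2⟩, p3, p4, p5, p6⟩ := hp
    exact ⟨p, m - p, p3, p4, by have := p4.pos; omega, p1, p2, p5, p6⟩
  · intro y₁ y₂ k1 k2 k3
    have h7 := hnext n h2 h3
    have h8 : (m : ℝ) / Real.log m ^ (W + 2) ≤ P n / Real.log m ^ W := by
      rw [div_le_div_iff₀ (by positivity) (by positivity)]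
      calc (m : ℝ) * Real.log m ^ W ≤ (P n * Real.log m ^ 2) * Real.log m ^ W := by gcongr
        _ = P n * Real.log m ^ (W + 2) := by ring
    refine (hwin y₁ y₂ k1 (by omega) (h8.trans k3)).trans ?_
    apply mul_le_mul_of_nonneg_right
    · have : min ε (1 / 2) ≤ ε := min_le_left _ _
      have : 0 < min ε (1 / 2) := lt_min hε (by norm_num)
      linarith
    · have : (0 : ℝ) ≤ (y₂ : ℝ) - y₁ := by
        have : (y₁ : ℝ) ≤ y₂ := by exact_mod_cast k1.le
        linarith
      positivity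

open Classical in
/-- **(1)** Let `κ ≠ 0`, `A`, `W`, `U`, `a` and `ε > 0` be fixed. There is a number `V` such that the following holds for all
large integers `q`. Let `y i`, `i ∈ s`, be a finite family of residues modulo `q` whose Fourier coefficients at the nonzero
frequencies are at most `|s| / log ^ V q`, and let `|c| ≤ q log ^ a q`. Then all the `i ∈ s`, with at most `|s| / log ^ U q`
exceptions, have the following property: every positive even integer `m` at a distance of at most `log ^ W q` from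
`c + κ y_i` (with the least residue `0 ≤ y_i < q`) satisfies the assertion of the
problem: if `m` lies in the `n + 1`-st primorial interval, `n ≥ 1`, it is the sum of a prime of the `n`-th interval and
of a prime of the `n`-th or of the `n + 1`-st interval; and the number of these representations, also in windows of the
`n`-th interval of a length of at least `#(n) / log ^ A m`, is as predicted, up to a relative error of at most `ε`.

**(2)**, **(3)** Examples. The condition of (1) holds modulo all large primes `p` for: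
* the quotients `j / r` of the integers `0 ≤ j < S` by the primes `r ≤ R`, if `log ^ (V + 4) p ≤ R < p` and `R ^ 2 ≤ S`; thus
  there are such explicit sets with only `log ^ (3 V + 12) p` members, in the short intervals around almost all members
  of which (and around almost all members of all their translates) the assertion of the problem holds;
* the cosets of all subgroups of the multiplicative group of an order of at least `p ^ (3/8) log ^ (3 V + 1) p`;
* the residues `a b + g(a) + k(b)`, `a ∈ A`, `b ∈ B`, for arbitrary sets with `|A| |B| ≥ p log ^ (2 V) p` and arbitrary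
  functions `g` and `k`;
* the values `f(n)`, `0 ≤ n < x`, of all integer polynomials of degree `d` whose leading coefficient is not divisible by
  `p`, if `x ^ d ≥ p log ^ C p`, where `C` depends on `d` and `V`. -/
theorem result :
    (∀ (κ : ℤ), κ ≠ 0 → ∀ (A W U a : ℕ) (ε : ℝ), 0 < ε → ∃ V q₀ : ℕ, ∀ q : ℕ, q₀ ≤ q → ∀ [NeZero q]
      (ι : Type) (s : Finset ι) (y : ι → ZMod q), Flat q (1 / Real.log q ^ V) s y →
      ∀ c : ℤ, |(c : ℝ)| ≤ q * Real.log q ^ a →
        ((s.filter fun i => ¬ ∀ m : ℤ, |(m : ℝ) - (c + κ * ((y i).val : ℕ))| ≤ Real.log q ^ W →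
          0 < m → Even m → Holds ε A m.toNat).card : ℝ) ≤ s.card / Real.log q ^ U) ∧
    (∀ V : ℕ, ∃ P₀ : ℕ, ∀ p : ℕ, P₀ ≤ p → ∀ [Fact p.Prime],
      (∀ R S : ℕ, Real.log p ^ (V + 4) ≤ R → R < p → R ^ 2 ≤ S →
        Flat p (1 / Real.log p ^ V) (((Icc 1 R).filter Nat.Prime) ×ˢ range S)
          (fun z => ((z.2 : ℕ) : ZMod p) * ((z.1 : ℕ) : ZMod p)⁻¹)) ∧
      (∀ (H : Subgroup (ZMod p)ˣ) (s : Finset (ZMod p)ˣ), (∀ u, u ∈ s ↔ u ∈ H) →
        (p : ℝ) ^ (3 / 8 : ℝ) * Real.log p ^ (3 * V + 1) ≤ s.card → ∀ x : ZMod p, x ≠ 0 →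
        Flat p (1 / Real.log p ^ V) s (fun u => x * (u : ZMod p))) ∧
      (∀ (A B : Finset (ZMod p)) (g k : ZMod p → ZMod p), (p : ℝ) * Real.log p ^ (2 * V) ≤ A.card * B.card →
        Flat p (1 / Real.log p ^ V) (A ×ˢ B) (fun z => z.1 * z.2 + g z.1 + k z.2))) ∧
    (∀ d V : ℕ, 1 ≤ d → ∃ C P₀ : ℕ, ∀ p : ℕ, P₀ ≤ p → ∀ [Fact p.Prime] (f : Polynomial ℤ), f.natDegree = d →
      ¬ (p : ℤ) ∣ f.leadingCoeff → ∀ x : ℕ, (p : ℝ) * Real.log p ^ C ≤ (x : ℝ) ^ d →
      Flat p (1 / Real.log p ^ V) (range x) (fun n => ((f.eval (n : ℤ) : ℤ) : ZMod p))) := by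
  refine ⟨fun κ hκ A W U a ε hε => ?_, fun V => ?_, fun d V hd => ?_⟩
  · obtain ⟨m₀, h0⟩ := holds_of ε hε A
    exact Pool.Agent.N384.MQ.mq_gold κ hκ (A + 2) W U a m₀ (min ε (1 / 2) / 4)
      (div_pos (lt_min hε (by norm_num)) (by norm_num)) (Holds ε A) h0
  · obtain ⟨P₁, h1⟩ := Pool.Agent.N384.MQ.flat_quot V
    obtain ⟨P₂, h2⟩ := Pool.Agent.N384.MQ.flat_coset V
    obtain ⟨P₃, h3⟩ := Pool.Agent.N384.MQ.flat_prod V
    exact ⟨P₁ + P₂ + P₃, fun p hp _ => ⟨fun R S => h1 p (by omega) R S, fun H s => h2 p (by omega) H s,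
      fun A B g k => h3 p (by omega) A B g k⟩⟩
  · exact Pool.Agent.N384.MQ.flat_poly d V hd

end Pool.Agent.Results.MP_484fb8_nt.ResidueFamilies
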