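import Pool.Agent.N384.MQ.Gold
import Pool.Agent.N384.MQ.Ex
import Pool.Agent.N384.MQ.Quot
import Pool.Agent.Results.MP_61161c_nt.DigitPermutations

/-!
# Sums of two distinct and almost equal odd primes near residues with small Fourier coefficients

Definitions used (starting file `Pool.Agent.H560R3.GB.Defs`): `sing m`: the singular series
`2 C₂ ∏_{p ∣ m, p > 2} (p - 1) / (p - 2)`, where `C₂` is the twin prime constant `∏_{p > 2} (1 - 1 / (p - 1) ^ 2)`.
From Mathlib: `ZMod.stdAddChar`: the additive character `j ↦ exp (2 π i j / q)` of the integers modulo `q`; `ZMod.val`: the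
least residue.

Method: a family of residues modulo `q` with small Fourier coefficients has small exponential sums at all real
frequencies which are not close to integers, and its least residues are not concentrated on short intervals. The passage
from such exponential sums to Goldbach representations in windows is from the starting files (`Pool.Agent.W93`, `Pool.Agent.TH872`),
and from `Pool.Agent.N625.DY` (helper625). The fixed exponent `V` comes from a compactness argument. Examples: a lemma of
Ajtai, Iwaniec, Komlos, Pintz and Szemeredi on quotients by small primes, the Stepanov type lemma of Heath-Brown and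
Konyagin for subgroups (library `H435R3.HBK`, `N825.FC`), and Weyl sums without losses (library `H373R2.NB`).
-/

set_option autoImplicit false

namespace Pool.Agent.Results.MP_61161c_nt.ResidueFamilies

open Finset Filter Pool.Agent.H560R3.GB

/-- The Fourier coefficients of the residues `y i`, `i ∈ s`, modulo `q` at the nonzero frequencies are at most
`η` times the number of the residues: `|∑ i ∈ s, e(h y_i / q)| ≤ η |s|` for all `h ≠ 0` modulo `q`. -/
def Flat {ι : Type} (q : ℕ) [NeZero q] (η : ℝ) (s : Finset ι) (y : ι → ZMod q) : Prop :=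
  ∀ h : ZMod q, h ≠ 0 → ‖∑ i ∈ s, (ZMod.stdAddChar (h * y i) : ℂ)‖ ≤ η * s.card

/-- The number of the `p` such that `p` and `p' = m - p` are odd primes, `p < p'` and `p' - p ≤ H`. -/
def K (m H : ℕ) : ℕ :=
  ((range m).filter (fun p => p.Prime ∧ p ≠ 2 ∧ (m - p).Prime ∧ m - p ≠ 2 ∧ p < m - p ∧ m - p ≤ p + H)).card

/-- For every `H` with `m / log ^ A m ≤ H ≤ m` there are distinct odd primes `p < p'` with `p + p' = m` and
`p' - p ≤ H`, and the number of these pairs is `sing m * H / (2 log ^ 2 m)` up to a relative error of at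
most `ε`. -/
def Holds (ε : ℝ) (A m : ℕ) : Prop :=
  ∀ H : ℕ, H ≤ m → (m : ℝ) / Real.log m ^ A ≤ H →
    (∃ p p' : ℕ, p.Prime ∧ p'.Prime ∧ p ≠ 2 ∧ p' ≠ 2 ∧ p < p' ∧ p + p' = m ∧ p' - p ≤ H) ∧
    |(K m H : ℝ) - sing m * H / (2 * Real.log m ^ 2)| ≤ ε * (sing m * H / (2 * Real.log m ^ 2))

open Classical in
/-- **(1)** Let `κ ≠ 0`, `A`, `W`, `U`, `a` and `ε > 0` be fixed. There is a number `V` such that the following holds for all
large integers `q`. Let `y i`, `i ∈ s`, be a finite family of residues modulo `q` whose Fourier coefficients at the nonzero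
frequencies are at most `|s| / log ^ V q`, and let `|c| ≤ q log ^ a q`. Then all the `i ∈ s`, with at most `|s| / log ^ U q`
exceptions, have the following property: every positive even integer `m` at a distance of at most `log ^ W q` from
`c + κ y_i` (with the least residue `0 ≤ y_i < q`) is a sum of two distinct odd
primes `p < p'`, even with `p' - p ≤ H` for every `H` with `m / log ^ A m ≤ H ≤ m`, and the number of these
representations is as predicted, up to a relative error of at most `ε`.

**(2)**, **(3)** Examples. The condition of (1) holds modulo all large primes `p` for: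
* the quotients `j / r` of the integers `0 ≤ j < S` by the primes `r ≤ R`, if `log ^ (V + 4) p ≤ R < p` and `R ^ 2 ≤ S`; thus
  there are such explicit sets with only `log ^ (3 V + 12) p` members, in the short intervals around almost all members
  of which (and around almost all members of all their translates) the assertion of the problem holds;
* the cosets of all subgroups of the multiplicative group of an order of at least `p ^ (3/8) log ^ (3 V + 1) p`;
* the residues `a b + g(a) + k(b)`, `a ∈ A`, `b ∈ B`, for arbitrary sets with `|A| |B| ≥ p log ^ (2 V) p` and arbitrary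
  functions `g` and `k`;
* the values `f(n)`, `0 ≤ n < x`, of all integer polynomials of degree `d` whose leading coefficient is not divisible by
  `p`, if `x ^ d ≥ p log ^ C p`, where `C` depends on `d` and `V`. -/
theorem result :
    (∀ (κ : ℤ), κ ≠ 0 → ∀ (A W U a : ℕ) (ε : ℝ), 0 < ε → ∃ V q₀ : ℕ, ∀ q : ℕ, q₀ ≤ q → ∀ [NeZero q]
      (ι : Type) (s : Finset ι) (y : ι → ZMod q), Flat q (1 / Real.log q ^ V) s y →
      ∀ c : ℤ, |(c : ℝ)| ≤ q * Real.log q ^ a →
        ((s.filter fun i => ¬ ∀ m : ℤ, |(m : ℝ) - (c + κ * ((y i).val : ℕ))| ≤ Real.log q ^ W →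
          0 < m → Even m → Holds ε A m.toNat).card : ℝ) ≤ s.card / Real.log q ^ U) ∧
    (∀ V : ℕ, ∃ P₀ : ℕ, ∀ p : ℕ, P₀ ≤ p → ∀ [Fact p.Prime],
      (∀ R S : ℕ, Real.log p ^ (V + 4) ≤ R → R < p → R ^ 2 ≤ S →
        Flat p (1 / Real.log p ^ V) (((Icc 1 R).filter Nat.Prime) ×ˢ range S)
          (fun z => ((z.2 : ℕ) : ZMod p) * ((z.1 : ℕ) : ZMod p)⁻¹)) ∧
      (∀ (H : Subgroup (ZMod p)ˣ) (s : Finset (ZMod p)ˣ), (∀ u, u ∈ s ↔ u ∈ H) →
        (p : ℝ) ^ (3 / 8 : ℝ) * Real.log p ^ (3 * V + 1) ≤ s.card → ∀ x : ZMod p, x ≠ 0 →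
        Flat p (1 / Real.log p ^ V) s (fun u => x * (u : ZMod p))) ∧
      (∀ (A B : Finset (ZMod p)) (g k : ZMod p → ZMod p), (p : ℝ) * Real.log p ^ (2 * V) ≤ A.card * B.card →
        Flat p (1 / Real.log p ^ V) (A ×ˢ B) (fun z => z.1 * z.2 + g z.1 + k z.2))) ∧
    (∀ d V : ℕ, 1 ≤ d → ∃ C P₀ : ℕ, ∀ p : ℕ, P₀ ≤ p → ∀ [Fact p.Prime] (f : Polynomial ℤ), f.natDegree = d →
      ¬ (p : ℤ) ∣ f.leadingCoeff → ∀ x : ℕ, (p : ℝ) * Real.log p ^ C ≤ (x : ℝ) ^ d →
      Flat p (1 / Real.log p ^ V) (range x) (fun n => ((f.eval (n : ℤ) : ℤ) : ZMod p))) := by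
  refine ⟨fun κ hκ A W U a ε hε => ?_, fun V => ?_, fun d V hd => ?_⟩
  · obtain ⟨m₀, h0⟩ := MP_61161c_nt.DigitPermutations.holds_of A ε hε
    exact Pool.Agent.N384.MQ.mq_gold κ hκ (A + 1) W U a m₀ (min ε (1 / 2) / 2)
      (div_pos (lt_min hε (by norm_num)) (by norm_num)) (Holds ε A) h0
  · obtain ⟨P₁, h1⟩ := Pool.Agent.N384.MQ.flat_quot V
    obtain ⟨P₂, h2⟩ := Pool.Agent.N384.MQ.flat_coset V
    obtain ⟨P₃, h3⟩ := Pool.Agent.N384.MQ.flat_prod V
    exact ⟨P₁ + P₂ + P₃, fun p hp _ => ⟨fun R S => h1 p (by omega) R S, fun H s => h2 p (by omega) H s,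
      fun A B g k => h3 p (by omega) A B g k⟩⟩
  · exact Pool.Agent.N384.MQ.flat_poly d V hd

end Pool.Agent.Results.MP_61161c_nt.ResidueFamilies
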