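import Pool.Agent.N384.MQ.ChowM
import Pool.Agent.N384.MQ.Ex
import Pool.Agent.N384.MQ.Quot

/-!
# The Liouville function at the values of arbitrary polynomials times many linear factors, the constant terms of which are
members of families of residues with small Fourier coefficients

From Mathlib: `ZMod.stdAddChar`: the additive character `j ↦ exp (2 π i j / M)` of the integers modulo `M`; `ZMod.val`: the
least residue; `Fintype.piFinset s`: the vectors `n` with `n i ∈ s i` for all `i`.

Method: a family of residues modulo `M` with small Fourier coefficients has small exponential sums at all real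
frequencies which are not close to integers. The passage from such exponential sums to correlations is from the starting
files (`Pool.Agent.W93.AU`, `Pool.Agent.R459.LawNear`); the passage from one factor to many factors is the general principle
of the starting files (`Pool.Agent.R501.CP2`). The fixed exponent `V` comes from a compactness argument. Examples: a lemma of
Ajtai, Iwaniec, Komlos, Pintz and Szemeredi on quotients by small primes, the Stepanov type lemma of Heath-Brown and
Konyagin for subgroups (library `H435R3.HBK`, `N825.FC`), and Weyl sums without losses (library `H373R2.NB`).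
-/

set_option autoImplicit false

namespace Pool.Agent.Results.MP_648c71_nt.ResidueFamilies

open Finset Filter

/-- The Fourier coefficients of the residues `y i`, `i ∈ s`, modulo `q` at the nonzero frequencies are at most
`η` times the number of the residues: `|∑ i ∈ s, e(h y_i / q)| ≤ η |s|` for all `h ≠ 0` modulo `q`. -/
def Flat {ι : Type} (q : ℕ) [NeZero q] (η : ℝ) (s : Finset ι) (y : ι → ZMod q) : Prop :=
  ∀ h : ZMod q, h ≠ 0 → ‖∑ i ∈ s, (ZMod.stdAddChar (h * y i) : ℂ)‖ ≤ η * s.card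

/-- The Liouville function on the integers, `λ(-m) = λ(m)` and `λ(0) = 0`. -/
def lam (m : ℤ) : ℤ := if m = 0 then 0 else (-1) ^ ArithmeticFunction.cardFactors m.natAbs

/-- The sum of `λ(F(t))` over the integers `t` with `u ≤ t ≤ v` and `t ≡ r mod q`, where `F` is the product of the
polynomial `g` and of the polynomials `α i T + h i`, `i ∈ I`. -/
noncomputable def lamSum {s : ℕ} (g : Polynomial ℤ) (α : Fin s → ℕ) (h : Fin s → ℤ) (I : Finset (Fin s)) (q : ℕ)
    (r u v : ℤ) : ℤ :=
  ∑ t ∈ (Icc u v).filter (fun t => t ≡ r [ZMOD q]),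
    lam ((g * ∏ i ∈ I, (Polynomial.C (α i : ℤ) * Polynomial.X + Polynomial.C (h i))).eval t)

/-- All the sums are small: for all `l`, all nonempty sets `I` of indices, all residue classes `r` modulo `q ≤ (log N) ^ T`
and all integers `u`, `v` with `α i |u| ≤ B N` and `α i |v| ≤ B N` for all `i ∈ I`, the sum of `λ(F(t))` over the `t` with
`u ≤ t ≤ v` and `t ≡ r mod q` is at most `N / (log N) ^ U` in absolute value, where `F = g l * ∏ i ∈ I, (α i T + h i)`. -/
def Small (B T U N : ℕ) {s L : ℕ} (g : Fin L → Polynomial ℤ) (α : Fin s → ℕ) (h : Fin s → ℤ) : Prop :=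
  ∀ l, ∀ I : Finset (Fin s), I.Nonempty → ∀ q : ℕ, 1 ≤ q → (q : ℝ) ≤ Real.log N ^ T → ∀ r u v : ℤ,
    (∀ i ∈ I, (α i : ℤ) * |u| ≤ B * N ∧ (α i : ℤ) * |v| ≤ B * N) →
    |((lamSum (g l) α h I q r u v : ℤ) : ℝ)| ≤ N / Real.log N ^ U

open Pool.Agent.N193.PS

open Classical in
/-- **(1)** Let `B`, `T`, `U` and `a` be fixed. There is a number `V` such that the following holds for all large integers `N`.
Let `2 ^ r ≤ (log N) ^ T` (so the number `r` of the linear factors may tend to infinity). For `i < r` let `y i j`, `j ∈ s i`,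
be a finite family of residues modulo an integer `M i` with `N / log ^ a N ≤ M i ≤ N` whose Fourier coefficients at the
nonzero frequencies are at most `|s i| / log ^ V (M i)`, let `|c₀ i| ≤ B N`, `κ i ≠ 0`, `|κ i| ≤ B` and `α i ≥ 1`. Let `g l`
be at most `(log N) ^ T` arbitrary polynomials with integer coefficients (of any degree). Then all the vectors `n` of
members `n i ∈ s i` of the families, up to a proportion of at most `1 / log ^ U N`, have the following property: with
`h i = c₀ i + κ i * y i (n i)` (least residues) and `F = g l * ∏ i ∈ I, (α i T + h i)` we have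
`|∑ λ(F(t))| ≤ N / (log N) ^ U` for all `l` and all nonempty sets `I` of indices, the sum over the `t ≡ r' mod q` in an
arbitrary interval `[u, v]` with `α i |u|, α i |v| ≤ B N` for all `i ∈ I`, for all residue classes `r'` modulo all
`q ≤ (log N) ^ T`.

**(2)**, **(3)** Examples. The condition of (1) holds modulo all large primes `p` for:
* the quotients `j / r` of the integers `0 ≤ j < S` by the primes `r ≤ R`, if `log ^ (V + 4) p ≤ R < p` and `R ^ 2 ≤ S`; thus
  there are such explicit sets with only `log ^ (3 V + 12) p` members;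
* the cosets of all subgroups of the multiplicative group of an order of at least `p ^ (3/8) log ^ (3 V + 1) p`;
* the residues `a b + g(a) + k(b)`, `a ∈ A`, `b ∈ B`, for arbitrary sets with `|A| |B| ≥ p log ^ (2 V) p` and arbitrary
  functions `g` and `k`;
* the values `f(n)`, `0 ≤ n < x`, of all integer polynomials of degree `d` whose leading coefficient is not divisible by
  `p`, if `x ^ d ≥ p log ^ C p`, where `C` depends on `d` and `V`. -/
theorem result :
    (∀ (B T U a : ℕ), ∃ V N₀ : ℕ, ∀ N : ℕ, N₀ ≤ N →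
      ∀ r L : ℕ, (2 : ℝ) ^ r ≤ Real.log N ^ T → (L : ℝ) ≤ Real.log N ^ T → ∀ (M : Fin r → ℕ) [∀ i, NeZero (M i)],
      (∀ i, M i ≤ N) → (∀ i, (N : ℝ) ≤ M i * Real.log N ^ a) →
      ∀ (ι : Type) (s : Fin r → Finset ι) (y : ∀ i, ι → ZMod (M i)),
      (∀ i, Flat (M i) (1 / Real.log (M i) ^ V) (s i) (y i)) →
      ∀ c₀ κ : Fin r → ℤ, (∀ i, |c₀ i| ≤ B * N) → (∀ i, κ i ≠ 0 ∧ |κ i| ≤ B) → ∀ α : Fin r → ℕ, (∀ i, 1 ≤ α i) →
      ∀ g : Fin L → Polynomial ℤ,
        (((Fintype.piFinset s).filter fun n =>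
          ¬ Small B T U N g α (fun i => c₀ i + κ i * ((y i (n i)).val : ℕ))).card : ℝ) ≤
          (∏ i, ((s i).card : ℝ)) / Real.log N ^ U) ∧
    (∀ V : ℕ, ∃ P₀ : ℕ, ∀ p : ℕ, P₀ ≤ p → ∀ [Fact p.Prime],
      (∀ R S : ℕ, Real.log p ^ (V + 4) ≤ R → R < p → R ^ 2 ≤ S →
        Flat p (1 / Real.log p ^ V) (((Icc 1 R).filter Nat.Prime) ×ˢ range S)
          (fun z => ((z.2 : ℕ) : ZMod p) * ((z.1 : ℕ) : ZMod p)⁻¹)) ∧
      (∀ (H : Subgroup (ZMod p)ˣ) (s : Finset (ZMod p)ˣ), (∀ u, u ∈ s ↔ u ∈ H) →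
        (p : ℝ) ^ (3 / 8 : ℝ) * Real.log p ^ (3 * V + 1) ≤ s.card → ∀ x : ZMod p, x ≠ 0 →
        Flat p (1 / Real.log p ^ V) s (fun u => x * (u : ZMod p))) ∧
      (∀ (A B : Finset (ZMod p)) (g k : ZMod p → ZMod p), (p : ℝ) * Real.log p ^ (2 * V) ≤ A.card * B.card →
        Flat p (1 / Real.log p ^ V) (A ×ˢ B) (fun z => z.1 * z.2 + g z.1 + k z.2))) ∧
    (∀ d V : ℕ, 1 ≤ d → ∃ C P₀ : ℕ, ∀ p : ℕ, P₀ ≤ p → ∀ [Fact p.Prime] (f : Polynomial ℤ), f.natDegree = d →
      ¬ (p : ℤ) ∣ f.leadingCoeff → ∀ x : ℕ, (p : ℝ) * Real.log p ^ C ≤ (x : ℝ) ^ d →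
      Flat p (1 / Real.log p ^ V) (range x) (fun n => ((f.eval (n : ℤ) : ℤ) : ZMod p))) := by
  refine ⟨fun B T U a => ?_, fun V => ?_, fun d V hd => ?_⟩
  · obtain ⟨V, N₁, h1⟩ := Pool.Agent.N384.MQ.mq_tuplesC B T U a
    obtain ⟨N₂, h2⟩ := Pool.Agent.N384.MQ.fam_N a 0 0 0
    refine ⟨V, N₁ + N₂ + 4, fun N hN r L hs hL M _ hM1 hM2 ι s y hf c₀ κ hc₀ hκ α hα g => ?_⟩
    have hL1 := log_pos4 N (by omega)
    have hLk := log_le_dg N (by omega)
    have hL0 : 0 < Real.log N := by linarith
    have hpow : ∀ m : ℕ, Real.log N ^ m ≤ (dg N : ℝ) ^ m := fun m => pow_le_pow_left₀ hL0.le hLk m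
    have h3 := h1 N (by omega) r L (by exact_mod_cast hs.trans (hpow T)) (by exact_mod_cast hL.trans (hpow T)) M hM1 hM2
      (fun i => (h2 N (by omega) (M i) (hM1 i) (hM2 i)).2.2.1) ι s y hf c₀ κ hc₀ hκ α hα g
    rw [Pool.Agent.R459.Fams.count_eq] at h3
    have hP0 : 0 ≤ ∏ i, ((s i).card : ℝ) := prod_nonneg fun i _ => Nat.cast_nonneg _
    refine le_trans (Nat.cast_le.2 (card_le_card fun n hn => ?_)) (h3.trans
      (div_le_div_of_nonneg_left hP0 (by positivity) (hpow U)))
    rw [mem_filter] at hn ⊢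
    refine ⟨hn.1, fun hcon => hn.2 ?_⟩
    intro l I hI q hq1 hq2 r u v huv
    have h4 := hcon l I hI q hq1 (by exact_mod_cast hq2.trans (hpow T)) r u v huv
    exact h4.trans (div_le_div_of_nonneg_left (Nat.cast_nonneg _) (by positivity) (hpow U))
  · obtain ⟨P₁, h1⟩ := Pool.Agent.N384.MQ.flat_quot V
    obtain ⟨P₂, h2⟩ := Pool.Agent.N384.MQ.flat_coset V
    obtain ⟨P₃, h3⟩ := Pool.Agent.N384.MQ.flat_prod V
    exact ⟨P₁ + P₂ + P₃, fun p hp _ => ⟨fun R S => h1 p (by omega) R S, fun H s => h2 p (by omega) H s,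
      fun A B g k => h3 p (by omega) A B g k⟩⟩
  · exact Pool.Agent.N384.MQ.flat_poly d V hd

end Pool.Agent.Results.MP_648c71_nt.ResidueFamilies
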