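import Pool.Agent.N384.VF.Big5
import Pool.Agent.N384.VF.Ex
import Pool.Agent.N141.TS.Frey

/-!
# Frey's inequality for elliptic curves in families with several parameters, whose vectors of parameters are in families
# of vectors of residues, over all number fields of bounded degree and for all Weil restrictions

Frey asks for constants `κ`, `c` such that `h_F(A) ≤ κ log N_A + c` for all abelian varieties `A` over
`K` of dimension `g`. Let `J = A / D` be a rational function over `ℚ` in `r` variables, for example the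
`j`-invariant of an elliptic curve over `ℚ(t₁, …, t_r)`, whose reductions modulo the primes have many
poles in the mean (`MeanPoles`); this is so for the universal family `y² = x³ + t₁ x + t₂`.

The height is the (unstable) Faltings height of the Néron model over `O_K`; `12 [K : ℚ] h_F(A)` is the
sum of the logarithm of the norm of the minimal discriminant of `E`, of the archimedean terms and of
`6 log (|D_L| / |D_K| ^ g)`, `g = [L : K]`. The conductor is
`N_A = N(f_E) (|D_L| / |D_K| ^ g) ^ 2` (Milne), where the part of `N(f_E)` prime to six is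
`multNorm E * addNorm E`.

From Mathlib: `ZMod.stdAddChar`: the additive character `j ↦ exp (2 π i j / q)` of the integers modulo `q`; `ZMod.val`: the
least residue; `Fintype.piFinset`: the product of finite sets.

Proof. A family of vectors of residues modulo `q` with small Fourier coefficients is uniformly distributed
in the residue classes modulo all integers up to a power of `Z` (`N384/VF`: completion in each coordinate).
By Turan's sieve (`Pool.Agent.N666.TM`, `N141.TS.core0`) almost all members have a prime `p` larger than a power of `Z` dividing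
`D` and not `A`. All elliptic curves of invariant `j` have bad reduction at the primes above `p`, the height of `j` is
`O(log q)`, and the minimal discriminant is bounded by the height of `j` and the additive primes
(`Pool.Agent.N141.TS.Frey`, `Y733.FF`). Examples: products, the lemma of Ajtai, Iwaniec, Komlos, Pintz and Szemeredi on quotients by small primes, the
Stepanov type lemma of Heath-Brown and Konyagin for subgroups (library `H435R3.HBK`, `N825.FC`), and Weyl sums without
losses (library `H373R2.NB`).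
-/

set_option autoImplicit false
set_option linter.unusedSectionVars false

namespace Pool.Agent.Results.MP_6babc4_nt.ResidueVectors

open NumberField IsDedekindDomain

/-- The Fourier coefficients of the vectors of residues `y i`, `i ∈ s`, modulo `q` at the nonzero frequencies are at most
`η` times the number of the vectors: `|∑ i ∈ s, e(h·y_i / q)| ≤ η |s|` for all vectors `h ≠ 0` modulo `q`. -/
def Flat {τ ι : Type} [Fintype ι] (q : ℕ) [NeZero q] (η : ℝ) (s : Finset τ) (y : τ → ι → ZMod q) : Prop :=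
  ∀ h : ι → ZMod q, h ≠ 0 → ‖∑ i ∈ s, (ZMod.stdAddChar (∑ j, h j * y i j) : ℂ)‖ ≤ η * s.card

/-- The same for residues (vectors with one coordinate). -/
def Flat1 {τ : Type} (q : ℕ) [NeZero q] (η : ℝ) (s : Finset τ) (y : τ → ZMod q) : Prop :=
  ∀ h : ZMod q, h ≠ 0 → ‖∑ i ∈ s, (ZMod.stdAddChar (h * y i) : ℂ)‖ ≤ η * s.card

/-- `Z ≤ q`, and the Fourier coefficients at the nonzero frequencies are at most `|s| / (Z (42 + 3 log q) ^ r)`, where `r` is
the number of the coordinates. -/
def Small {τ ι : Type} [Fintype ι] (q : ℕ) [NeZero q] (Z : ℝ) (s : Finset τ) (y : τ → ι → ZMod q) : Prop :=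
  Z ≤ q ∧ Flat q (1 / (Z * (42 + 3 * Real.log q) ^ Fintype.card ι)) s y

/-- The integral vector `c₀ + y_i`, with the least residues `0 ≤ y_i < q`. -/
def vec {τ ι : Type} {q : ℕ} (y : τ → ι → ZMod q) (c₀ : ι → ℤ) (i : τ) (j : ι) : ℤ := c₀ j + ((y i j).val : ℕ)

/-- the modular invariant `j(τ) = E₄(τ) ^ 3 / Δ(τ) = 1 / q + 744 + ⋯` -/
noncomputable def jInv (τ : UpperHalfPlane) : ℂ :=
  ModularForm.E₄ τ ^ 3 / ModularForm.discriminant τ

/-- the archimedean term `- log (|Δ(τ)| (Im τ) ^ 6)` of the Faltings height -/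
noncomputable def arch (τ : UpperHalfPlane) : ℝ :=
  -Real.log (‖ModularForm.discriminant τ‖ * τ.im ^ 6)

/-- the points `τ w` have modular invariant `j` -/
def IsPeriod {L : Type} [Field L] [NumberField L] (j : L)
    (τ : InfinitePlace L → UpperHalfPlane) : Prop := ∀ w, jInv (τ w) = w.embedding j

/-- the equation is integral at `v` -/
def IntAt {L : Type} [Field L] [NumberField L] (v : HeightOneSpectrum (𝓞 L))
    (E : WeierstrassCurve L) : Prop :=
  v.valuation L E.a₁ ≤ 1 ∧ v.valuation L E.a₂ ≤ 1 ∧ v.valuation L E.a₃ ≤ 1 ∧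
    v.valuation L E.a₄ ≤ 1 ∧ v.valuation L E.a₆ ≤ 1

/-- the exponent of `v` in the minimal discriminant of the curve: the least valuation at `v` of the
discriminant of a Weierstrass equation of the curve over `L` which is integral at `v` -/
noncomputable def discExp {L : Type} [Field L] [NumberField L] (v : HeightOneSpectrum (𝓞 L))
    (E : WeierstrassCurve L) : ℕ :=
  sInf {m : ℕ | ∃ C : WeierstrassCurve.VariableChange L, IntAt v (C • E) ∧
    v.valuation L (C • E).Δ = WithZero.exp (-(m : ℤ))}

/-- the Faltings height over `K` of the Weil restriction `A = Res_{L/K} E` of an elliptic curve `E`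
over `L` (up to an absolute additive multiple of `[L : K]` which depends on the normalisation of the
metric only) -/
noncomputable def height (K : Type) [Field K] [NumberField K] {L : Type} [Field L] [NumberField L]
    [Algebra K L] (E : WeierstrassCurve L) (τ : InfinitePlace L → UpperHalfPlane) : ℝ :=
  (∑ᶠ v : HeightOneSpectrum (𝓞 L), (discExp v E : ℝ) * Real.log (Ideal.absNorm v.asIdeal : ℝ) +
    ∑ w : InfinitePlace L, (w.mult : ℝ) * arch (τ w) +
    6 * (Real.log |(discr L : ℝ)| - Module.finrank K L * Real.log |(discr K : ℝ)|)) /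
    (12 * Module.finrank ℚ K)

/-- good reduction at `v`: some Weierstrass equation over `L` of the curve is integral at `v` and
has a discriminant which is a unit at `v` -/
def GoodAt {L : Type} [Field L] [NumberField L] (v : HeightOneSpectrum (𝓞 L))
    (E : WeierstrassCurve L) : Prop :=
  ∃ C : WeierstrassCurve.VariableChange L,
    v.valuation L (C • E).a₁ ≤ 1 ∧ v.valuation L (C • E).a₂ ≤ 1 ∧ v.valuation L (C • E).a₃ ≤ 1 ∧
    v.valuation L (C • E).a₄ ≤ 1 ∧ v.valuation L (C • E).a₆ ≤ 1 ∧ v.valuation L (C • E).Δ = 1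

/-- semistable (good or multiplicative) reduction at `v`: some Weierstrass equation over `L` of the
curve is integral at `v` and its discriminant or its invariant `c₄` is a unit at `v` -/
def SemistableAt {L : Type} [Field L] [NumberField L] (v : HeightOneSpectrum (𝓞 L))
    (E : WeierstrassCurve L) : Prop :=
  ∃ C : WeierstrassCurve.VariableChange L,
    v.valuation L (C • E).a₁ ≤ 1 ∧ v.valuation L (C • E).a₂ ≤ 1 ∧ v.valuation L (C • E).a₃ ≤ 1 ∧
    v.valuation L (C • E).a₄ ≤ 1 ∧ v.valuation L (C • E).a₆ ≤ 1 ∧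
    (v.valuation L (C • E).Δ = 1 ∨ v.valuation L (C • E).c₄ = 1)

/-- the product of the norms of the primes of multiplicative reduction not dividing six -/
noncomputable def multNorm {L : Type} [Field L] [NumberField L] (E : WeierstrassCurve L) : ℝ :=
  ∏ᶠ v ∈ {v : HeightOneSpectrum (𝓞 L) |
    ¬ GoodAt v E ∧ SemistableAt v E ∧ v.valuation L 6 = 1}, (Ideal.absNorm v.asIdeal : ℝ)

/-- the product of the squares of the norms of the primes of additive reduction not dividing six -/
noncomputable def addNorm {L : Type} [Field L] [NumberField L] (E : WeierstrassCurve L) : ℝ :=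
  ∏ᶠ v ∈ {v : HeightOneSpectrum (𝓞 L) | ¬ SemistableAt v E ∧ v.valuation L 6 = 1},
    (Ideal.absNorm v.asIdeal : ℝ) ^ 2

/-- the norm `|D_L| / |D_K| ^ [L : K]` of the relative discriminant -/
noncomputable def relDisc (K L : Type) [Field K] [NumberField K] [Field L] [NumberField L]
    [Algebra K L] : ℝ := |(discr L : ℝ)| / |(discr K : ℝ)| ^ Module.finrank K L

/-- the part `N` of the conductor of `A = Res_{L/K} E`: the part prime to six of the norm of the
conductor of `E`, times the square of the norm of the relative discriminant -/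
noncomputable def cond (K : Type) [Field K] [NumberField K] {L : Type} [Field L] [NumberField L]
    [Algebra K L] (E : WeierstrassCurve L) : ℝ :=
  multNorm E * addNorm E * relDisc K L ^ 2

/-- Frey's inequality with the constants `κ` and `c` for the Weil restrictions to all subfields `K`
of `L` of all elliptic curves over `L` of invariant `j` -/
def Frey (κ c : ℝ) {L : Type} [Field L] [NumberField L] (j : L) : Prop :=
  ∀ (K : Type) [Field K] [NumberField K] [Algebra K L] (E : WeierstrassCurve L)
    (τ : InfinitePlace L → UpperHalfPlane), E.Δ ≠ 0 → E.c₄ ^ 3 / E.Δ = j → IsPeriod j τ →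
    height K E τ ≤ κ * Real.log (cond K E) + c

open MvPolynomial

/-- the sum over the primes `y < p ≤ x` of the proportion of the vectors modulo `p` that are zeros of
`D` but not of `A` is at least `δ (log log x - log log y) - C` -/
def MeanPoles {r : ℕ} (A D : MvPolynomial (Fin r) ℤ) : Prop :=
  ∃ δ C : ℝ, 0 < δ ∧ ∀ y x : ℕ, 3 ≤ y → y ≤ x →
    δ * (Real.log (Real.log x) - Real.log (Real.log y)) - C ≤
      ∑ p ∈ (Finset.Ioc y x).filter Nat.Prime,
        ({ρ : Fin r → ZMod p | aeval ρ D = 0 ∧ aeval ρ A ≠ 0}.ncard : ℝ) / (p : ℝ) ^ r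

/-- `v` is not a pole of `A / D` and Frey's inequality holds at `(A / D) (v)` over all number fields
of degree at most `d` -/
def Holds (κ c : ℝ) (d : ℕ) {r : ℕ} (A D : MvPolynomial (Fin r) ℤ) (v : Fin r → ℤ) : Prop :=
  eval v D ≠ 0 ∧ ∀ (L : Type) [Field L] [NumberField L], Module.finrank ℚ L ≤ d →
    Frey κ c (((eval v A : ℤ) : L) / ((eval v D : ℤ) : L))

/-- Frey's inequality from a large pole -/
theorem frey_of {σ : ℝ} (hσ : 0 ≤ σ) (d : ℕ) : ∃ c : ℝ, ∀ x y : ℤ, Pool.Agent.N141.TS.Big5 σ x y →
    ∀ (L : Type) [Field L] [NumberField L], Module.finrank ℚ L ≤ d →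
      Frey ((5 + d * σ) / 12) c ((x : L) / y) := by
  obtain ⟨C, hC, hf⟩ := Pool.Agent.N141.TS.frey_big
  refine ⟨C * d / 12, fun x y hb L _ _ hL K _ _ _ E τ hE hj hτ => ?_⟩
  obtain ⟨hy0, p, hp, h5, hpy, hpx, H, h1, h2, h3⟩ := hb
  have hτ' : Pool.Agent.TH876.FH.IsPeriod (E.c₄ ^ 3 / E.Δ) τ := by
    rw [hj]
    exact hτ
  have key := hf L E τ σ x y p hE hj hτ' hσ hy0 hp h5 hpy hpx ⟨H, h1, h2, h3⟩
  have hdK1 : (1 : ℝ) ≤ |(discr K : ℝ)| := by
    have h1 : (1 : ℤ) ≤ |discr K| := Int.one_le_abs (discr_ne_zero K)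
    exact_mod_cast h1
  have hdL1 : (1 : ℝ) ≤ |(discr L : ℝ)| := by
    have h1 : (1 : ℤ) ≤ |discr L| := Int.one_le_abs (discr_ne_zero L)
    exact_mod_cast h1
  have hK1 : (1 : ℝ) ≤ Module.finrank ℚ K := by
    exact_mod_cast Module.finrank_pos (R := ℚ) (M := K)
  have hm : 0 < multNorm E := Pool.Agent.Y733.FF.multN_pos E hE
  have ha : 0 < addNorm E := Pool.Agent.Y733.FF.addN_pos E hE
  have hr : 0 < relDisc K L := by
    unfold relDisc
    have : (0 : ℝ) < |(discr L : ℝ)| := by linarith
    have : (0 : ℝ) < |(discr K : ℝ)| := by linarith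
    positivity
  have hlm : 0 ≤ Real.log (multNorm E) := Pool.Agent.Y733.FF.log_multN_nonneg E hE
  have hla : 0 ≤ Real.log (addNorm E) := by
    have h1 := Pool.Agent.Y733.FF.log_addN E hE
    have h2 : Real.log (addNorm E) = Real.log (Pool.Agent.Y733.FF.addN E) := rfl
    rw [h2, h1]
    have : 0 ≤ ∑ᶠ v : HeightOneSpectrum (𝓞 L), Pool.Agent.Y733.FF.aw v E :=
      finsum_nonneg fun v => Pool.Agent.Y733.FF.aw_nonneg v E
    linarith
  have hlr : 0 ≤ Real.log (relDisc K L ^ 2) := by
    have h3 := Pool.Agent.Y733.FF.disc_ge K L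
    have h4 : Real.log (relDisc K L ^ 2) =
        2 * (Real.log |(discr L : ℝ)| - Module.finrank K L * Real.log |(discr K : ℝ)|) := by
      unfold relDisc
      rw [Real.log_pow, Real.log_div (by linarith) (pow_pos (by linarith) _).ne', Real.log_pow]
      push_cast
      ring
    rw [h4]
    linarith
  have hcond : Real.log (cond K E) = Real.log (multNorm E) + Real.log (addNorm E) +
      Real.log (relDisc K L ^ 2) := by
    unfold cond
    rw [Real.log_mul (mul_pos hm ha).ne' (pow_pos hr 2).ne', Real.log_mul hm.ne' ha.ne']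
  have hheight : 12 * (Module.finrank ℚ K : ℝ) * height K E τ = Pool.Agent.Y733.FF.discSum E +
      ∑ w : InfinitePlace L, (w.mult : ℝ) * Pool.Agent.TH876.FH.arch (τ w) +
      3 * Real.log (relDisc K L ^ 2) := by
    have h0 : (12 * (Module.finrank ℚ K : ℝ)) ≠ 0 := by positivity
    have h3 : 3 * Real.log (relDisc K L ^ 2) =
        6 * (Real.log |(discr L : ℝ)| - Module.finrank K L * Real.log |(discr K : ℝ)|) := by
      unfold relDisc
      rw [Real.log_pow, Real.log_div (by linarith) (pow_pos (by linarith) _).ne', Real.log_pow]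
      push_cast
      ring
    rw [h3]
    unfold height
    rw [mul_div_cancel₀ _ h0]
    rfl
  have hn : (Module.finrank ℚ L : ℝ) ≤ d := by exact_mod_cast hL
  have hn0 : (0 : ℝ) ≤ Module.finrank ℚ L := Nat.cast_nonneg _
  have hkey2 : Pool.Agent.Y733.FF.discSum E +
      ∑ w : InfinitePlace L, (w.mult : ℝ) * Pool.Agent.TH876.FH.arch (τ w) ≤
      (5 + Module.finrank ℚ L * σ) * (Real.log (multNorm E) + Real.log (addNorm E)) +
        C * Module.finrank ℚ L := key
  set S := Real.log (multNorm E) + Real.log (addNorm E) with hS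
  have hS0 : 0 ≤ S := by positivity
  have h6 : (Module.finrank ℚ L : ℝ) * σ ≤ d * σ := mul_le_mul_of_nonneg_right hn hσ
  have h7 : (5 + Module.finrank ℚ L * σ) * S ≤ (5 + d * σ) * S :=
    mul_le_mul_of_nonneg_right (by linarith) hS0
  have h8 : C * Module.finrank ℚ L ≤ C * d := mul_le_mul_of_nonneg_left hn hC.le
  have h9 : 3 * Real.log (relDisc K L ^ 2) ≤ (5 + d * σ) * Real.log (relDisc K L ^ 2) := by
    refine mul_le_mul_of_nonneg_right ?_ hlr
    have : 0 ≤ (d : ℝ) * σ := by positivity
    linarith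
  have h10 : 12 * (Module.finrank ℚ K : ℝ) * height K E τ ≤
      (5 + d * σ) * Real.log (cond K E) + C * d := by
    rw [hheight, hcond]
    nlinarith
  have h11 : 0 ≤ (5 + d * σ) * Real.log (cond K E) + C * d := by
    rw [hcond]
    positivity
  -- divide by `12 [K : ℚ]`
  have h12 : height K E τ ≤ ((5 + d * σ) * Real.log (cond K E) + C * d) / 12 := by
    rw [le_div_iff₀ (by norm_num)]
    rcases le_or_gt (height K E τ) 0 with h13 | h13
    · linarith
    · have h14 : height K E τ * 12 ≤ 12 * (Module.finrank ℚ K : ℝ) * height K E τ := by nlinarith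
      linarith
  refine h12.trans (le_of_eq ?_)
  ring

/-- **(1)** Let `A, D` be integral polynomials in `r` variables such that `A / D` has many poles in the mean, `D ≠ 0`, and let
`d`, `B` and `ε, β > 0` be arbitrary. There are `κ`, `c'` and `Z₀` such that for all families of vectors `y_i`, `i ∈ s`, of residues
modulo any `q` with `r` coordinates and Fourier coefficients at most `|s| / (Z (42 + 3 log q) ^ r)` at all nonzero
frequencies, where `q ^ β ≤ Z ≤ q`, `Z ≥ Z₀`, and for all integral vectors `c₀` with `|c₀| ≤ q ^ B`: for all but `ε |s|` of the `i`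
Frey's inequality with the constants `κ` and `c'` holds for ALL Weil restrictions `Res_{L/K} E`, where `L/K` is any extension of
number fields, `[L : ℚ] ≤ d`, and `E` is any elliptic curve over `L` of invariant `j = (A / D)(c₀ + y_i)`. The invariant
`6912 t₁³ / (4 t₁³ + 27 t₂²)` of the universal family `y² = x³ + t₁ x + t₂` has many poles in the mean.

**(2)** Products: if the residues `y_j(t)`, `t ∈ s_j`, have Fourier coefficients at most `η |s_j|` for each coordinate `j`, then
the product family of vectors `(y_j(g_j))_j`, `g_j ∈ s_j`, has Fourier coefficients at most `η` times the number of its members.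

**(3)** Families of residues modulo primes `p` with Fourier coefficients at most `|s| / K`, `K ≥ 1` arbitrary: the quotients
`j / r` of the integers `0 ≤ j < S` by the primes `r ≤ R`, if `K log ^ 4 p ≤ R < p` and `R ^ 2 ≤ S` (and `p` is large); the cosets
of all subgroups of the multiplicative group of an order of at least `5 p ^ (3/8) K ^ 3`; the residues `a b + g(a) + k(b)`,
`a ∈ A`, `b ∈ B`, for arbitrary sets with `|A| |B| ≥ p K ^ 2` and arbitrary functions `g` and `k`.

**(4)** Polynomial curves: for `1 ≤ d ≤ D` there is `C` such that for all primes `p` and all integral polynomials `f_j` of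
pairwise distinct degrees between `d` and `D` whose leading coefficients are not divisible by `p`, the vectors `(f_j(n))_j`
modulo `p`, `0 ≤ n < x`, have Fourier coefficients at most `x / K` for all `K ≥ 1` with `C K ^ C ≤ p` and
`C K ^ C p ≤ x ^ d`. (So there are such families with only about `p ^ (1 / d)` members.) -/
theorem result :
    ((∀ (r : ℕ) (A D : MvPolynomial (Fin r) ℤ), D ≠ 0 → MeanPoles A D → ∀ (d : ℕ) (ε β : ℝ) (B : ℕ), 0 < ε → 0 < β →
      ∃ (κ c' : ℝ) (Z₀ : ℕ), 0 < κ ∧ ∀ (τ : Type) (q : ℕ) [NeZero q] (s : Finset τ) (y : τ → Fin r → ZMod q) (Z : ℝ),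
        Z₀ ≤ Z → (q : ℝ) ^ β ≤ Z → Small q Z s y → ∀ c₀ : Fin r → ℤ, (∀ j, |(c₀ j : ℝ)| ≤ (q : ℝ) ^ B) →
        ({i : τ | i ∈ s ∧ ¬ Holds κ c' d A D (vec y c₀ i)}.ncard : ℝ) ≤ ε * s.card) ∧
      MeanPoles (C 6912 * X 0 ^ 3 : MvPolynomial (Fin 2) ℤ) (C 4 * X 0 ^ 3 + C 27 * X 1 ^ 2)) ∧
    (∀ (ι : Type) [Fintype ι] [DecidableEq ι] (q : ℕ) [NeZero q] (η : ℝ) (τ : Type) (s : ι → Finset τ) (y : ι → τ → ZMod q),
      (∀ j, Flat1 q η (s j) (y j)) → Flat q η (Fintype.piFinset s) (fun g j => y j (g j))) ∧
    (∃ P₀ : ℕ, ∀ p : ℕ, P₀ ≤ p → ∀ [Fact p.Prime] (K : ℝ), 1 ≤ K →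
      (∀ R S : ℕ, K * Real.log p ^ 4 ≤ R → R < p → R ^ 2 ≤ S →
        Flat1 p (1 / K) (((Finset.Icc 1 R).filter Nat.Prime) ×ˢ Finset.range S)
          (fun z => ((z.2 : ℕ) : ZMod p) * ((z.1 : ℕ) : ZMod p)⁻¹)) ∧
      (∀ (H : Subgroup (ZMod p)ˣ) (s : Finset (ZMod p)ˣ), (∀ u, u ∈ s ↔ u ∈ H) →
        5 * (p : ℝ) ^ (3 / 8 : ℝ) * K ^ 3 ≤ s.card → ∀ x : ZMod p, x ≠ 0 → Flat1 p (1 / K) s (fun u => x * (u : ZMod p))) ∧
      (∀ (A B : Finset (ZMod p)) (g k : ZMod p → ZMod p), (p : ℝ) * K ^ 2 ≤ A.card * B.card →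
        Flat1 p (1 / K) (A ×ˢ B) (fun z => z.1 * z.2 + g z.1 + k z.2))) ∧
    (∀ d D : ℕ, 1 ≤ d → ∃ C : ℕ, ∀ (ι : Type) [Fintype ι] (p : ℕ) [Fact p.Prime] (f : ι → Polynomial ℤ),
      (∀ j, d ≤ (f j).natDegree ∧ (f j).natDegree ≤ D ∧ ¬ (p : ℤ) ∣ (f j).leadingCoeff) →
      Function.Injective (fun j => (f j).natDegree) → ∀ K : ℝ, 1 ≤ K → C * K ^ C ≤ p → ∀ x : ℕ,
      C * K ^ C * p ≤ (x : ℝ) ^ d → Flat p (1 / K) (Finset.range x) (fun n j => (((f j).eval (n : ℤ) : ℤ) : ZMod p))) := by
  refine ⟨⟨fun r A D hD hM d ε β B hε hβ => ?_, Pool.Agent.N141.TS.mean_wei⟩, ⟨fun ι _ _ q _ η τ s y h => Pool.Agent.N384.VF.flat_pi q η s y h, ?_,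
    fun d D hd => Pool.Agent.N384.VF.flat_poly d D hd⟩⟩
  · obtain ⟨σ, hσ, Z₀, hZ₀⟩ := Pool.Agent.N384.VF.big5 hD hM ε β B hε hβ
    obtain ⟨c', hc'⟩ := frey_of hσ d
    have key : ∀ v : Fin r → ℤ, Pool.Agent.N141.TS.Big5 σ (eval v A) (eval v D) →
        Holds ((5 + d * σ) / 12) c' d A D v := fun v hb =>
      ⟨hb.1, fun L _ _ hL => hc' _ _ hb L hL⟩
    refine ⟨(5 + d * σ) / 12, c', Z₀, by positivity, fun τ q _ s y Z hZ hqZ hsm c₀ hc₀ => ?_⟩
    exact (Pool.Agent.N384.VF.ncard_mono fun i _ hn hb => hn (key _ hb)).trans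
      (hZ₀ τ q s y Z hZ hqZ ⟨hsm.1, hsm.2⟩ c₀ hc₀)
  · obtain ⟨P₀, h0⟩ := Pool.Agent.N384.MQ.flatK_quot
    exact ⟨P₀, fun p hp _ K hK => ⟨fun R S => h0 p hp K hK R S,
      fun H s hs hc x hx => Pool.Agent.N384.MQ.flatK_coset p H s hs K hK hc x hx,
      fun A B g k hAB => Pool.Agent.N384.MQ.flatK_prod p A B g k K hK hAB⟩⟩

end Pool.Agent.Results.MP_6babc4_nt.ResidueVectors
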