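import Pool.Agent.N384.VF.One
import Pool.Agent.N384.VF.Ex
import Pool.Agent.N680.TH.Fin

/-!
# MP_c1dca2_ag: twists with parameters in families of residues: no sections over all number fields of degree prime to `ℓ`

For a prime `ℓ`, `m = ℓ^j` with `j ≥ 1`, an integer `b ≠ 0` and a polynomial `g ∈ ℤ[x]`, such that
`g(x^m)` has no multiple roots and degree at least 3, let `C_a` be the smooth projective curve
`b y^ℓ = g(a x^m)`.

**Theorem.**  There are `η(Z) → 0` (`Z → ∞`) and sets of integers `E_Z`, such that for all families of residues `y_i`, `i ∈ s`,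
modulo any `q` with Fourier coefficients at most `|s| / (Z (42 + 3 log q))` at the nonzero frequencies, `Z ≤ q`, and all integers
`c₀`, at most `η(Z) |s|` of the integers `a = c₀ + y_i` are in `E_Z`; and for all `ℓ`, `j`, `b` and `g` as above either all
curves `C_a`, `a ≠ 0`, have a rational point, or there is `Z₁` such that for `Z ≥ Z₁`, all `a ∉ E_Z` and all number fields `K` of
degree prime to `ℓ` the fundamental group of `C_a` over `K`, and of every open subcurve, has no section, and the geometrically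
pro-`ℓ` fundamental group of `C_a` over `K` has no section either. So in the second case almost all `C_a` of such a family satisfy
the section conjecture over all these `K`.

Examples of families: the quotients of integers by small primes modulo a prime `p`, the cosets of all subgroups of the
multiplicative group modulo `p` of an order of at least `p ^ (3/8 + δ)`, sets of products, values of polynomials.

The proof uses the local theorem `TwistsByRotations` of the starting library: at a prime of `K` where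
the valuation of `a` is not divisible by `m` the local section is the section of a point over `x = 0`
or `x = ∞`.  If neither `b y^ℓ = g(0)` nor (for `ℓ ∣ deg g`) `b z^ℓ = lc(g)` has a rational solution,
then by Chebotarev's theorem there is a set of prime numbers `p ≡ 1 (mod ℓ)`, with divergent sum of
reciprocals, modulo which these equations have no solutions; the same is true over an extension of
`𝔽_p` of degree prime to `ℓ` (helper680).  If such a `p` divides `a` exactly once and the degree of `K` is prime to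
`ℓ`, there is a prime of `K` above `p` whose ramification index and degree are prime to `ℓ`, and there
are no sections.  Families with small Fourier coefficients are uniformly distributed modulo all integers up to a power of `Z`
(`N384/VF`), and by Turán's method (`N666.TM`) almost all members are divisible exactly once by a prime of the set. A diagonal
argument gives one exceptional set. Examples: products, the lemma of Ajtai, Iwaniec, Komlos, Pintz and Szemeredi on quotients by small primes, the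
Stepanov type lemma of Heath-Brown and Konyagin for subgroups (library `H435R3.HBK`, `N825.FC`), and Weyl sums without
losses (library `H373R2.NB`).

The fundamental group is described through valuations.  Let `U` be a smooth geometrically connected
curve over `k` with function field `F`, let `Ω` be an algebraic closure of `F`, and let `F_U` be the
maximal extension of `F` inside `Ω` which is unramified over the closed points of `U`, that is, over
their local rings, which are valuation rings of `F`.  Then `π₁(U) = Gal(F_U/F)`, and the map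
`π₁(U) → G_k` is the restriction of automorphisms to the algebraic closure of `k` in `Ω`.

From Mathlib: `ZMod.stdAddChar`: the additive character `j ↦ exp (2 π i j / q)` of the integers modulo `q`; `ZMod.val`: the
least residue.
-/

set_option autoImplicit false

open Polynomial NumberField

namespace Pool.Agent.Results.MP_c1dca2_ag.ResidueVectors

section definitions

variable (ℓ : ℕ) (k F Ω : Type) [Field k] [Field F] [Field Ω] [Algebra k F] [Algebra F Ω]
  [Algebra k Ω]

/-- The inertia group of the valuation ring `W` of `Ω`, as a subgroup of `Gal(Ω/F)`: the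
automorphisms of `Ω` over `F` that map `W` onto itself and act as the identity on its residue
field. -/
noncomputable def inertia (W : ValuationSubring Ω) : Subgroup (Ω ≃ₐ[F] Ω) :=
  (W.inertiaSubgroup F).map (W.decompositionSubgroup F).subtype

/-- `F_U`, for a set `U` of valuation rings of `F`: the elements of `Ω` fixed by the inertia groups
of all valuation rings `W` of `Ω` with `W ∩ F ∈ U`.  If `Ω` is an algebraic closure of a field `F`
of characteristic zero, this is the maximal extension of `F` in `Ω` unramified over `U`. -/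
noncomputable def unramified (U : Set (ValuationSubring F)) : IntermediateField F Ω :=
  ⨅ W : {W : ValuationSubring Ω // W.comap (algebraMap F Ω) ∈ U},
    IntermediateField.fixedField (inertia F Ω W.1)

/-- `k̄ F`, the compositum of `F` and of the algebraic closure of `k` in `Ω`. -/
noncomputable def geomField : IntermediateField F Ω :=
  IntermediateField.adjoin F (algebraicClosure k Ω : Set Ω)

/-- The algebraic extension `L` of `K` in `Ω` is unramified at all valuation rings of `Ω` that
contain `k`: every nonzero element of `L` has the same valuation as an element of `K`.  (If `K` is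
a function field of one variable over the algebraic closure of `k` and `k` has characteristic zero,
then this says that `L/K` is unramified over all points of the smooth projective curve.) -/
def Unramified {k K Ω : Type} [Field k] [Field K] [Field Ω] [Algebra k Ω] [Algebra K Ω]
    (L : IntermediateField K Ω) : Prop :=
  ∀ W : ValuationSubring Ω, (∀ c : k, algebraMap k Ω c ∈ W) → ∀ z ∈ L, z ≠ 0 →
    ∃ t : K, t ≠ 0 ∧ z / algebraMap K Ω t ∈ W ∧ (z / algebraMap K Ω t)⁻¹ ∈ W

/-- `L/K` is a finite Galois extension whose degree is a power of `ℓ`. -/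
def FiniteProEll (ℓ : ℕ) {K Ω : Type} [Field K] [Field Ω] [Algebra K Ω]
    (L : IntermediateField K Ω) : Prop :=
  FiniteDimensional K L ∧ IsGalois K L ∧ ∃ m : ℕ, Module.finrank K L = ℓ ^ m

/-- The maximal unramified pro-`ℓ` extension of `K` in `Ω`: the compositum of the finite Galois
extensions of `K` whose degree is a power of `ℓ` and which are unramified. -/
noncomputable def maxProEll (ℓ : ℕ) (k K Ω : Type) [Field k] [Field K] [Field Ω] [Algebra k Ω]
    [Algebra K Ω] : IntermediateField K Ω :=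
  ⨆ L : {L : IntermediateField K Ω // FiniteProEll ℓ L ∧ Unramified (k := k) L}, L.1

/-- `M`, the maximal unramified pro-`ℓ` extension of `k̄ F` in `Ω`, as an extension of `F`.  If `F` is
the function field of the smooth projective curve `C`, then `Gal(M/F)` is the geometrically pro-`ℓ`
fundamental group of `C`. -/
noncomputable def proEllField : IntermediateField F Ω :=
  (maxProEll ℓ k (geomField k F Ω) Ω).restrictScalars F

/-- The map `τ : M → M` acts as `σ : K → K` on the elements that the fields `K` and `M` have in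
common when they are regarded as subfields of `Ω` through `i` and `j`. -/
def ActsAs {K M Ω : Type} [Field K] [Field M] [Field Ω] (i : K →+* Ω) (j : M →+* Ω) (σ : K → K)
    (τ : M → M) : Prop :=
  ∀ c z, j z = i c → j (τ z) = i (σ c)

/-- Let `k ⊆ K ⊆ Ω` and `F ⊆ N ⊆ Ω` be fields.  A splitting of `Gal(N/F) → Gal(K/k)`: a continuous
homomorphism `s` from `Gal(K/k)` to `Gal(N/F)` such that `s(σ)` acts as `σ` on the elements of
`K ∩ N`. -/
structure Splitting (K N : Type) [Field K] [Field N] [Algebra k K] [Algebra F N] [Algebra K Ω]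
    [Algebra N Ω] where
  /-- the homomorphism `Gal(K/k) → Gal(N/F)` -/
  toHom : (K ≃ₐ[k] K) →* (N ≃ₐ[F] N)
  cont : Continuous toHom
  compat : ∀ σ : K ≃ₐ[k] K, ActsAs (algebraMap K Ω) (algebraMap N Ω) σ (toHom σ)

end definitions

section curves

/-- `F = k(x, y)` is the function field of the curve `b y^ℓ = g(a x^m)`. -/
def IsFunctionField {k F : Type} [Field k] [Field F] [Algebra k F] (ℓ m : ℕ) (g : k[X]) (a b : k)
    (x y : F) : Prop :=
  Transcendental k x ∧ algebraMap k F b * y ^ ℓ = aeval (algebraMap k F a * x ^ m) g ∧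
    IntermediateField.adjoin k {x, y} = (⊤ : IntermediateField k F)

/-- Let `F` be the function field of the smooth projective curve `C : b y^ℓ = g(a x^m)` over `K`, let
`Ω` be an algebraic closure of `F` and let `K̄` be the algebraic closure of `K` in `Ω`.  There is no
section `G_K → Gal(M/F)` of the geometrically pro-`ℓ` fundamental group of `C`, and for every set `U`
of valuation rings of `F` over `K` there is no section `G_K → Gal(F_U/F)`.  Such `U` are given by `C`
and all its open subcurves. -/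
def NoSections {K : Type} [Field K] (ℓ m : ℕ) (g : K[X]) (a b : K) : Prop :=
  ∀ (F Ω : Type) [Field F] [Field Ω] [Algebra K F] [Algebra F Ω] [Algebra K Ω]
    [IsScalarTower K F Ω] [IsAlgClosure F Ω] (x y : F), IsFunctionField ℓ m g a b x y →
    IsEmpty (Splitting K F Ω (algebraicClosure K Ω) (proEllField ℓ K F Ω)) ∧
    ∀ U : Set (ValuationSubring F), (∀ O ∈ U, ∀ c : K, algebraMap K F c ∈ O) →
      IsEmpty (Splitting K F Ω (algebraicClosure K Ω) (unramified F Ω U))

/-- The smooth projective curve `b y^ℓ = g(a x^m)`, where `ℓ` divides `m`, has a rational point: a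
point in the affine part, or a point at infinity.  The points at infinity correspond to the values
`z` of the function `y / x^(m deg g / ℓ)`, with `b z^ℓ = lc(g) a^(deg g)`. -/
def HasRationalPoint (ℓ m : ℕ) (g : ℤ[X]) (a b : ℤ) : Prop :=
  (∃ x y : ℚ, b * y ^ ℓ = aeval (a * x ^ m) g) ∨
    ∃ z : ℚ, b * z ^ ℓ = g.leadingCoeff * (a : ℚ) ^ g.natDegree

end curves

lemma iSup_congr_prop {α : Type} [CompleteLattice α] {P Q : α → Prop} (h : ∀ L, P L ↔ Q L) :
    (⨆ L : {L // P L}, L.1) = ⨆ L : {L // Q L}, L.1 := by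
  have h1 : P = Q := funext fun L => propext (h L)
  subst h1
  rfl

lemma proEll_eq (ℓ : ℕ) (k F Ω : Type) [Field k] [Field F] [Field Ω] [Algebra k F] [Algebra F Ω]
    [Algebra k Ω] : proEllField ℓ k F Ω = Pool.Agent.Y157.PS.geomPro ℓ k F Ω := by
  unfold proEllField Pool.Agent.Y157.PS.geomPro maxProEll Pool.Agent.Y157.PS.maxPro
  congr 1
  refine iSup_congr_prop fun L => ?_
  constructor
  · rintro ⟨⟨h1, h2, h3⟩, h4⟩
    refine ⟨⟨h1, h2, h3⟩, fun W hW z hz hz0 => ?_⟩
    obtain ⟨t, ht, h5, h6⟩ := h4 W hW z hz hz0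
    exact ⟨t, ht, div_ne_zero hz0 ((_root_.map_ne_zero _).2 ht), h5, h6⟩
  · rintro ⟨⟨h1, h2, h3⟩, h4⟩
    refine ⟨⟨h1, h2, h3⟩, fun W hW z hz hz0 => ?_⟩
    obtain ⟨t, ht, -, h5, h6⟩ := h4 W hW z hz hz0
    exact ⟨t, ht, h5, h6⟩

/-- the local obstruction at `p` -/
lemma noSections_of {K : Type} [Field K] [NumberField K] {ℓ j p : ℕ} [Fact ℓ.Prime] (hj : 1 ≤ j)
    (g : ℤ[X]) (b : ℤ) (h3 : 3 ≤ ℓ ^ j * g.natDegree) (hg : Pool.Agent.N680.TH.GoodP ℓ j g b p)
    (hK : ¬ ℓ ∣ Module.finrank ℚ K) (a : ℤ) (ha : Pool.Agent.N680.TH.Once p a) :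
    NoSections ℓ (ℓ ^ j) (g.map (Int.castRingHom K)) (a : K) (b : K) := by
  intro F Ω _ _ _ _ _ _ _ x y hxyF
  obtain ⟨hx, hxy, hF⟩ := hxyF
  have hcl : IsAlgClosed Ω := IsAlgClosure.isAlgClosed F
  have halg : Algebra.IsAlgebraic F Ω := IsAlgClosure.isAlgebraic
  have h3' : 3 ≤ (expand ℤ (ℓ ^ j) g).natDegree := by
    rw [natDegree_expand, mul_comm]
    exact h3
  have hb : b ≠ 0 := by
    intro h
    apply hg.pb
    rw [h]
    exact dvd_zero _
  have hFx := Pool.Agent.R925.L.alg_eqn (Fact.out : ℓ.Prime).pos _ _ _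
    (Int.cast_ne_zero.2 hb : (b : K) ≠ 0) x y hxy hF
  have hle : ∀ U : Set (ValuationSubring F), (∀ O ∈ U, ∀ c : K, algebraMap K F c ∈ O) →
      Pool.Agent.Y157.PS.geomPro ℓ K F Ω ≤ unramified F Ω U := fun U hU =>
    (Pool.Agent.Y157.PS.a_ind ℓ K F Ω x hx hFx U hU).1
  refine ⟨⟨fun s => ?_⟩, fun U hU => ⟨fun s => ?_⟩⟩
  · exact Pool.Agent.N680.TH.no_section hj g b h3' hg hK a ha.1 ha.2 x y hx hxy hF _
      (proEll_eq ℓ K F Ω).ge s.toHom s.cont fun σ c z hz => s.compat σ c z hz
  · exact Pool.Agent.N680.TH.no_section hj g b h3' hg hK a ha.1 ha.2 x y hx hxy hF _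
      (hle U hU) s.toHom s.cont fun σ c z hz => s.compat σ c z hz

/-- a rational point with `x = 0` -/
lemma point_zero {ℓ m : ℕ} (hℓ : 0 < ℓ) (hm : 0 < m) (g : ℤ[X]) (b : ℤ) (hb : b ≠ 0) (c : ℤ)
    (hc : c ^ ℓ = g.coeff 0 * b ^ (ℓ - 1)) (a : ℤ) : HasRationalPoint ℓ m g a b := by
  left
  have hbQ : (b : ℚ) ≠ 0 := Int.cast_ne_zero.2 hb
  refine ⟨0, c / b, ?_⟩
  have h1 : aeval ((a : ℚ) * 0 ^ m) g = (g.coeff 0 : ℚ) := by
    rw [zero_pow hm.ne', mul_zero, aeval_def, eval₂_at_zero]
    simp
  obtain ⟨l, rfl⟩ : ∃ l, ℓ = l + 1 := ⟨ℓ - 1, by omega⟩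
  have h2 : (c : ℚ) ^ (l + 1) = g.coeff 0 * (b : ℚ) ^ l := by
    rw [Nat.add_sub_cancel] at hc
    exact_mod_cast hc
  rw [h1, div_pow, h2, pow_succ]
  field_simp

/-- a rational point at infinity -/
lemma point_inf {ℓ m : ℕ} (hℓ : 0 < ℓ) (g : ℤ[X]) (b : ℤ) (hb : b ≠ 0) (hd : ℓ ∣ g.natDegree) (c : ℤ)
    (hc : c ^ ℓ = g.leadingCoeff * b ^ (ℓ - 1)) (a : ℤ) : HasRationalPoint ℓ m g a b := by
  right
  have hbQ : (b : ℚ) ≠ 0 := Int.cast_ne_zero.2 hb
  obtain ⟨d, hd⟩ := hd
  refine ⟨c / b * a ^ d, ?_⟩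
  rw [mul_pow, ← pow_mul, mul_comm d ℓ, ← hd]
  obtain ⟨l, rfl⟩ : ∃ l, ℓ = l + 1 := ⟨ℓ - 1, by omega⟩
  have h2 : (c : ℚ) ^ (l + 1) = g.leadingCoeff * (b : ℚ) ^ l := by
    rw [Nat.add_sub_cancel] at hc
    exact_mod_cast hc
  rw [div_pow, h2, pow_succ]
  field_simp

/-- The Fourier coefficients of the residues `y i`, `i ∈ s`, modulo `q` at the nonzero frequencies are at most `η` times the
number of the residues: `|∑ i ∈ s, e(h y_i / q)| ≤ η |s|` for all `h ≠ 0` modulo `q`. -/
def Flat1 {τ : Type} (q : ℕ) [NeZero q] (η : ℝ) (s : Finset τ) (y : τ → ZMod q) : Prop :=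
  ∀ h : ZMod q, h ≠ 0 → ‖∑ i ∈ s, (ZMod.stdAddChar (h * y i) : ℂ)‖ ≤ η * s.card

/-- `Z ≤ q`, and the Fourier coefficients at the nonzero frequencies are at most `|s| / (Z (42 + 3 log q))`. -/
def Small {τ : Type} (q : ℕ) [NeZero q] (Z : ℝ) (s : Finset τ) (y : τ → ZMod q) : Prop :=
  Z ≤ q ∧ Flat1 q (1 / (Z * (42 + 3 * Real.log q))) s y

/-- For all primes `ℓ`, all `m = ℓ^j`, `j ≥ 1`, all integers `b ≠ 0` and all polynomials `g` with integral coefficients such that
`g(x^m)` has no multiple roots and degree at least 3: either all the curves `b y^ℓ = g(a x^m)`, `a ≠ 0`, have a rational point,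
or for all sufficiently large `Z` and all `a` outside of `E Z` there are no sections for the curve `b y^ℓ = g(a x^m)` over any
number field `K` of degree prime to `ℓ`. -/
def AllTwists (E : ℝ → Set ℤ) : Prop :=
  ∀ (ℓ : ℕ) [Fact ℓ.Prime] (j : ℕ) (g : ℤ[X]) (b : ℤ), 1 ≤ j → b ≠ 0 →
    ((expand ℤ (ℓ ^ j) g).map (Int.castRingHom ℚ)).Separable → 3 ≤ ℓ ^ j * g.natDegree →
    (∀ a : ℤ, a ≠ 0 → HasRationalPoint ℓ (ℓ ^ j) g a b) ∨
    ∃ Z₁ : ℕ, ∀ Z : ℝ, Z₁ ≤ Z → ∀ a : ℤ, a ∉ E Z →
      ∀ (K : Type) [Field K] [NumberField K], ¬ ℓ ∣ Module.finrank ℚ K →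
        NoSections ℓ (ℓ ^ j) (g.map (Int.castRingHom K)) (a : K) (b : K)

theorem main : ∃ (η : ℝ → ℝ) (E : ℝ → Set ℤ), Filter.Tendsto η Filter.atTop (nhds 0) ∧
    (∀ (τ : Type) (q : ℕ) [NeZero q] (s : Finset τ) (y : τ → ZMod q) (Z : ℝ), Small q Z s y → ∀ c₀ : ℤ,
      ({i : τ | i ∈ s ∧ c₀ + (((y i).val : ℕ) : ℤ) ∈ E Z}.ncard : ℝ) ≤ η Z * s.card) ∧ AllTwists E := by
  classical
  have hcz := Pool.Agent.N680.TH.countable_poly
  obtain ⟨η, E, h1, h2, h3⟩ := Pool.Agent.N384.VF.once_uniform
    (fun q : {q : ℕ × ℕ × ℤ[X] × ℤ // Pool.Agent.N680.TH.Fam q.1 q.2.1 q.2.2.1 q.2.2.2} =>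
      {p : ℕ | Pool.Agent.N680.TH.GoodP q.1.1 q.1.2.1 q.1.2.2.1 q.1.2.2.2 p}) (fun _ _ hp => hp.pr)
    (fun q => Pool.Agent.N680.TH.good_diverges q.2)
  refine ⟨η, E, h1, fun τ q _ s y Z hs c₀ => h2 τ q s y Z hs.1 hs.2 c₀, ?_⟩
  intro ℓ hℓF j g b hj hb hsep hdeg
  have hℓ : ℓ.Prime := Fact.out
  by_cases hn0 : ∀ c : ℤ, c ^ ℓ ≠ g.coeff 0 * b ^ (ℓ - 1)
  · by_cases hn1 : ℓ ∣ g.natDegree → ∀ c : ℤ, c ^ ℓ ≠ g.leadingCoeff * b ^ (ℓ - 1)
    · right
      have hg0 : g ≠ 0 := by
        rintro rfl
        rw [natDegree_zero, mul_zero] at hdeg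
        omega
      obtain ⟨Z₁, h4⟩ := h3 ⟨(ℓ, j, g, b), ⟨hℓ, hsep, hb, hg0, hn0, hn1⟩⟩
      refine ⟨Z₁, fun Z hZ a ha K _ _ hK => ?_⟩
      obtain ⟨p, hgood, honce⟩ := h4 Z hZ a ha
      exact noSections_of hj g b hdeg hgood hK _ honce
    · left
      push Not at hn1
      obtain ⟨hd, c, hc⟩ := hn1
      exact fun a _ => point_inf hℓ.pos g b hb hd c hc a
  · left
    push Not at hn0
    obtain ⟨c, hc⟩ := hn0
    exact fun a _ => point_zero hℓ.pos (pow_pos hℓ.pos j) g b hb c hc a

/-- **(1)** There are a function `η(Z) → 0` (`Z → ∞`) and sets `E_Z` of integers such that for all families of residues `y_i`,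
`i ∈ s`, modulo any `q` with Fourier coefficients at most `|s| / (Z (42 + 3 log q))` at all nonzero frequencies, where `Z ≤ q`,
and for all integers `c₀` at most `η(Z) |s|` of the integers `c₀ + y_i` are in `E_Z`; and the assertion `AllTwists` is true for
the sets `E_Z`.

**(2)** Families of residues modulo primes `p` with Fourier coefficients at most `|s| / K`, `K ≥ 1` arbitrary: the quotients
`j / r` of the integers `0 ≤ j < S` by the primes `r ≤ R`, if `K log ^ 4 p ≤ R < p` and `R ^ 2 ≤ S` (and `p` is large); the cosets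
of all subgroups of the multiplicative group of an order of at least `5 p ^ (3/8) K ^ 3`; the residues `a b + g(a) + k(b)`,
`a ∈ A`, `b ∈ B`, for arbitrary sets with `|A| |B| ≥ p K ^ 2` and arbitrary functions `g` and `k`.

**(3)** For `d ≥ 1` there is `C` such that for all primes `p` and all integral polynomials `f` of degree `d` whose leading
coefficients are not divisible by `p` the residues `f(n)`, `0 ≤ n < x`, have Fourier coefficients at most `x / K` for all
`K ≥ 1` with `C K ^ C ≤ p` and `C K ^ C p ≤ x ^ d`. -/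
theorem result :
    (∃ (η : ℝ → ℝ) (E : ℝ → Set ℤ), Filter.Tendsto η Filter.atTop (nhds 0) ∧
      (∀ (τ : Type) (q : ℕ) [NeZero q] (s : Finset τ) (y : τ → ZMod q) (Z : ℝ), Small q Z s y → ∀ c₀ : ℤ,
        ({i : τ | i ∈ s ∧ c₀ + (((y i).val : ℕ) : ℤ) ∈ E Z}.ncard : ℝ) ≤ η Z * s.card) ∧ AllTwists E) ∧
    (∃ P₀ : ℕ, ∀ p : ℕ, P₀ ≤ p → ∀ [Fact p.Prime] (K : ℝ), 1 ≤ K →
      (∀ R S : ℕ, K * Real.log p ^ 4 ≤ R → R < p → R ^ 2 ≤ S →
        Flat1 p (1 / K) (((Finset.Icc 1 R).filter Nat.Prime) ×ˢ Finset.range S)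
          (fun z => ((z.2 : ℕ) : ZMod p) * ((z.1 : ℕ) : ZMod p)⁻¹)) ∧
      (∀ (H : Subgroup (ZMod p)ˣ) (s : Finset (ZMod p)ˣ), (∀ u, u ∈ s ↔ u ∈ H) →
        5 * (p : ℝ) ^ (3 / 8 : ℝ) * K ^ 3 ≤ s.card → ∀ x : ZMod p, x ≠ 0 → Flat1 p (1 / K) s (fun u => x * (u : ZMod p))) ∧
      (∀ (A B : Finset (ZMod p)) (g k : ZMod p → ZMod p), (p : ℝ) * K ^ 2 ≤ A.card * B.card →
        Flat1 p (1 / K) (A ×ˢ B) (fun z => z.1 * z.2 + g z.1 + k z.2))) ∧
    (∀ d : ℕ, 1 ≤ d → ∃ C : ℕ, ∀ (p : ℕ) [Fact p.Prime] (f : ℤ[X]), f.natDegree = d → ¬ (p : ℤ) ∣ f.leadingCoeff →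
      ∀ K : ℝ, 1 ≤ K → C * K ^ C ≤ p → ∀ x : ℕ, C * K ^ C * p ≤ (x : ℝ) ^ d →
      Flat1 p (1 / K) (Finset.range x) (fun n => ((f.eval (n : ℤ) : ℤ) : ZMod p))) := by
  refine ⟨main, ?_, fun d hd => Pool.Agent.N384.MQ.flatK_poly d hd⟩
  obtain ⟨P₀, h0⟩ := Pool.Agent.N384.MQ.flatK_quot
  exact ⟨P₀, fun p hp _ K hK => ⟨fun R S => h0 p hp K hK R S,
    fun H s hs hc x hx => Pool.Agent.N384.MQ.flatK_coset p H s hs K hK hc x hx,
    fun A B g k hAB => Pool.Agent.N384.MQ.flatK_prod p A B g k K hK hAB⟩⟩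

end Pool.Agent.Results.MP_c1dca2_ag.ResidueVectors
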