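import Pool.Agent.N384.VF.Two
import Pool.Agent.N384.VF.Ex
import Pool.Agent.Results.MP_f5d5f4_nt.FewDigitFamilies

/-!
# MP_f5d5f4_nt: elliptic curves whose coefficients or parameters are in families of vectors of residues have no congruences

`NoCongruence A B A' B'` (from the starting result `FewDigitFamilies`): `y² = x³ + Ax + B` and `y² = x³ + A'x + B'` are elliptic
curves, their `n`-torsion is not isomorphic over `ℚ` for any `n ≥ 2`, and it is not isomorphic over any number field `L`, if `n`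
has a prime factor `l ≥ 3`, `l > [L : ℚ]`.

From Mathlib: `ZMod.stdAddChar`: the additive character `j ↦ exp (2 π i j / q)` of the integers modulo `q`; `ZMod.val`: the
least residue; `Fintype.piFinset`: the product of finite sets.

Proof. The local theorems are from the starting libraries (`TH4.FZ.key_bad`, `TH894.NJ.no_iso`): a curve
without bad reduction at two primes which divide the discriminant of `E` exactly once has no congruences with `E`. A family of vectors of residues modulo `q` with small Fourier coefficients is uniformly distributed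
in the residue classes modulo all integers up to a power of `Z` (`N384/VF`: completion in each coordinate).
Turan's sieve (`Pool.Agent.N666.TM`, `N645.TF.two_primes`) gives for almost all members two primes `Z ^ (2η) < q₁ < q₂ ≤ Z ^ κ`
which divide the discriminant of `E` exactly once; each of them divides few discriminants of the members of any family with
`Z' ≥ Z` (Schwartz-Zippel). Examples: products, the lemma of Ajtai, Iwaniec, Komlos, Pintz and Szemeredi on quotients by small primes, the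
Stepanov type lemma of Heath-Brown and Konyagin for subgroups (library `H435R3.HBK`, `N825.FC`), and Weyl sums without
losses (library `H373R2.NB`).
-/

set_option autoImplicit false

namespace Pool.Agent.Results.MP_f5d5f4_nt.ResidueVectors

open Polynomial
open Pool.Agent.Results.MP_f5d5f4_nt.FewDigitFamilies (NoCongruence)

/-- The Fourier coefficients of the vectors of residues `y i`, `i ∈ s`, modulo `q` at the nonzero frequencies are at most
`η` times the number of the vectors: `|∑ i ∈ s, e(h·y_i / q)| ≤ η |s|` for all vectors `h ≠ 0` modulo `q`. -/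
def Flat {τ ι : Type} [Fintype ι] (q : ℕ) [NeZero q] (η : ℝ) (s : Finset τ) (y : τ → ι → ZMod q) : Prop :=
  ∀ h : ι → ZMod q, h ≠ 0 → ‖∑ i ∈ s, (ZMod.stdAddChar (∑ j, h j * y i j) : ℂ)‖ ≤ η * s.card

/-- The same for residues (vectors with one coordinate). -/
def Flat1 {τ : Type} (q : ℕ) [NeZero q] (η : ℝ) (s : Finset τ) (y : τ → ZMod q) : Prop :=
  ∀ h : ZMod q, h ≠ 0 → ‖∑ i ∈ s, (ZMod.stdAddChar (h * y i) : ℂ)‖ ≤ η * s.card

/-- `Z ≤ q`, and the Fourier coefficients at the nonzero frequencies are at most `|s| / (Z (42 + 3 log q) ^ r)`, where `r` is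
the number of the coordinates. -/
def Small {τ ι : Type} [Fintype ι] (q : ℕ) [NeZero q] (Z : ℝ) (s : Finset τ) (y : τ → ι → ZMod q) : Prop :=
  Z ≤ q ∧ Flat q (1 / (Z * (42 + 3 * Real.log q) ^ Fintype.card ι)) s y

/-- The integral vector `c₀ + y_i`, with the least residues `0 ≤ y_i < q`. -/
def vec {τ ι : Type} {q : ℕ} (y : τ → ι → ZMod q) (c₀ : ι → ℤ) (i : τ) (j : ι) : ℤ := c₀ j + ((y i j).val : ℕ)

/-- The curve `y² = x³ + e.1 x + e.2` has no congruences with elliptic curves `y² = x³ + ax + b`, `a`, `b` integers,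
`|4a³ + 27b²| ≤ Z ^ η`. In ALL families of vectors of `r'` residues with a parameter `Z' ≥ Z`, at all integral vectors `c₀'`, it
has congruences with at most the proportion `Z ^ (-η)` of the curves `y² = x³ + A'(w)x + B'(w)`, `w = c₀' + y'_t`. -/
def Good {r' : ℕ} (A' B' : MvPolynomial (Fin r') ℤ) (Z η : ℝ) (e : ℤ × ℤ) : Prop :=
  (∀ a b : ℤ, 4 * a ^ 3 + 27 * b ^ 2 ≠ 0 → ((|4 * a ^ 3 + 27 * b ^ 2| : ℤ) : ℝ) ≤ Z ^ η → NoCongruence e.1 e.2 a b) ∧
  ∀ (τ' : Type) (q' : ℕ) [NeZero q'] (s' : Finset τ') (y' : τ' → Fin r' → ZMod q') (Z' : ℝ), Z ≤ Z' → Small q' Z' s' y' →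
    ∀ c₀' : Fin r' → ℤ, ({t : τ' | t ∈ s' ∧ ¬ NoCongruence e.1 e.2 (MvPolynomial.eval (vec y' c₀' t) A')
      (MvPolynomial.eval (vec y' c₀' t) B')}.ncard : ℝ) ≤ Z ^ (-η) * s'.card

/-- The conclusion for the family of curves `y² = x³ + E(v).1 x + E(v).2` with `r` parameters `v`. -/
def Holds {r : ℕ} (E : (Fin r → ℤ) → ℤ × ℤ) : Prop :=
  ∀ (r' : ℕ) (ε : ℝ), 0 < ε → ∃ η : ℝ, 0 < η ∧ ∀ A' B' : MvPolynomial (Fin r') ℤ, 4 * A' ^ 3 + 27 * B' ^ 2 ≠ 0 →
    ∃ Z₀ : ℕ, ∀ (τ : Type) (q : ℕ) [NeZero q] (s : Finset τ) (y : τ → Fin r → ZMod q) (Z : ℝ), Z₀ ≤ Z → Small q Z s y →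
      ∀ c₀ : Fin r → ℤ, ({i : τ | i ∈ s ∧ ¬ Good A' B' Z η (E (vec y c₀ i))}.ncard : ℝ) ≤ ε * s.card

lemma holds {r : ℕ} {E : (Fin r → ℤ) → ℤ × ℤ} (hE : Pool.Agent.N645.TF.Src E) : Holds E := by
  intro r' ε hε
  obtain ⟨η, hη, h1⟩ := Pool.Agent.N384.VF.src_main E hE r' ε hε
  refine ⟨η, hη, fun A' B' hD => ?_⟩
  obtain ⟨Z₀, h2⟩ := h1 A' B' hD
  refine ⟨Z₀, fun τ q _ s y Z hZ hsm c₀ => ?_⟩
  refine le_trans (Pool.Agent.N384.VF.ncard_mono fun i _ hnot => ?_) (h2 τ q s y Z hZ ⟨hsm.1, hsm.2⟩ c₀)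
  intro hgood
  apply hnot
  obtain ⟨g1, g2⟩ := hgood _ rfl
  refine ⟨fun a b h0 hle => FewDigitFamilies.no_congruence (g1 a b h0 ?_), fun τ' q' _ s' y' Z' hZ' hsm' c₀' => ?_⟩
  · refine le_trans (le_of_eq ?_) hle
    unfold Pool.Agent.W275.FM.dsc
    push_cast
    rfl
  · refine le_trans (Pool.Agent.N384.VF.ncard_mono fun t _ ht => ?_) (g2 τ' q' s' y' Z' hZ' ⟨hsm'.1, hsm'.2⟩ c₀')
    intro hT
    exact ht (FewDigitFamilies.no_congruence hT)

/-- **(1)** Let the source be all curves `y² = x³ + v₀ x + v₁`, or a one-parameter family `y² = x³ + A(v₀) x + B(v₀)` such that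
some irreducible factor of `4A³ + 27B²` has multiplicity one (an `I₁` fibre). For all `r'` and `ε > 0` there is `η > 0` such that
for all polynomial families `y² = x³ + A'(w)x + B'(w)` of curves in `r'` parameters, `4A'³ + 27B'² ≠ 0`, there is `Z₀` such that
for all families of vectors `y_i`, `i ∈ s`, of residues (as many as the source has parameters) modulo any `q` with Fourier
coefficients at most `|s| / (Z (42 + 3 log q) ^ r)` at all nonzero frequencies, where `Z₀ ≤ Z ≤ q`, and for all integral vectors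
`c₀`: all but `ε |s|` of the curves of the source at the parameters `v = c₀ + y_i` have no congruences with elliptic curves
`y² = x³ + ax + b` with `|4a³ + 27b²| ≤ Z ^ η`, and in ALL families of vectors of `r'` residues with a parameter `Z' ≥ Z` they
have congruences with at most the proportion `Z ^ (-η)` of the curves `y² = x³ + A'(w)x + B'(w)`, `w = c₀' + y'_t`.

**(2)** Products: if the residues `y_j(t)`, `t ∈ s_j`, have Fourier coefficients at most `η |s_j|` for each coordinate `j`, then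
the product family of vectors `(y_j(g_j))_j`, `g_j ∈ s_j`, has Fourier coefficients at most `η` times the number of its members.

**(3)** Families of residues modulo primes `p` with Fourier coefficients at most `|s| / K`, `K ≥ 1` arbitrary: the quotients
`j / r` of the integers `0 ≤ j < S` by the primes `r ≤ R`, if `K log ^ 4 p ≤ R < p` and `R ^ 2 ≤ S` (and `p` is large); the cosets
of all subgroups of the multiplicative group of an order of at least `5 p ^ (3/8) K ^ 3`; the residues `a b + g(a) + k(b)`,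
`a ∈ A`, `b ∈ B`, for arbitrary sets with `|A| |B| ≥ p K ^ 2` and arbitrary functions `g` and `k`.

**(4)** Polynomial curves: for `1 ≤ d ≤ D` there is `C` such that for all primes `p` and all integral polynomials `f_j` of
pairwise distinct degrees between `d` and `D` whose leading coefficients are not divisible by `p`, the vectors `(f_j(n))_j`
modulo `p`, `0 ≤ n < x`, have Fourier coefficients at most `x / K` for all `K ≥ 1` with `C K ^ C ≤ p` and
`C K ^ C p ≤ x ^ d`. (So there are such families with only about `p ^ (1 / d)` members.) -/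
theorem result :
    (Holds (fun v : Fin 2 → ℤ => (v 0, v 1)) ∧
      ∀ A B P : ℤ[X], Irreducible P → 0 < P.natDegree → P ∣ 4 * A ^ 3 + 27 * B ^ 2 → ¬ P ^ 2 ∣ 4 * A ^ 3 + 27 * B ^ 2 →
        Holds (fun v : Fin 1 → ℤ => (A.eval (v 0), B.eval (v 0)))) ∧
    (∀ (ι : Type) [Fintype ι] [DecidableEq ι] (q : ℕ) [NeZero q] (η : ℝ) (τ : Type) (s : ι → Finset τ) (y : ι → τ → ZMod q),
      (∀ j, Flat1 q η (s j) (y j)) → Flat q η (Fintype.piFinset s) (fun g j => y j (g j))) ∧
    (∃ P₀ : ℕ, ∀ p : ℕ, P₀ ≤ p → ∀ [Fact p.Prime] (K : ℝ), 1 ≤ K →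
      (∀ R S : ℕ, K * Real.log p ^ 4 ≤ R → R < p → R ^ 2 ≤ S →
        Flat1 p (1 / K) (((Finset.Icc 1 R).filter Nat.Prime) ×ˢ Finset.range S)
          (fun z => ((z.2 : ℕ) : ZMod p) * ((z.1 : ℕ) : ZMod p)⁻¹)) ∧
      (∀ (H : Subgroup (ZMod p)ˣ) (s : Finset (ZMod p)ˣ), (∀ u, u ∈ s ↔ u ∈ H) →
        5 * (p : ℝ) ^ (3 / 8 : ℝ) * K ^ 3 ≤ s.card → ∀ x : ZMod p, x ≠ 0 → Flat1 p (1 / K) s (fun u => x * (u : ZMod p))) ∧
      (∀ (A B : Finset (ZMod p)) (g k : ZMod p → ZMod p), (p : ℝ) * K ^ 2 ≤ A.card * B.card →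
        Flat1 p (1 / K) (A ×ˢ B) (fun z => z.1 * z.2 + g z.1 + k z.2))) ∧
    (∀ d D : ℕ, 1 ≤ d → ∃ C : ℕ, ∀ (ι : Type) [Fintype ι] (p : ℕ) [Fact p.Prime] (f : ι → Polynomial ℤ),
      (∀ j, d ≤ (f j).natDegree ∧ (f j).natDegree ≤ D ∧ ¬ (p : ℤ) ∣ (f j).leadingCoeff) →
      Function.Injective (fun j => (f j).natDegree) → ∀ K : ℝ, 1 ≤ K → C * K ^ C ≤ p → ∀ x : ℕ,
      C * K ^ C * p ≤ (x : ℝ) ^ d → Flat p (1 / K) (Finset.range x) (fun n j => (((f j).eval (n : ℤ) : ℤ) : ZMod p))) := by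
  refine ⟨⟨holds Pool.Agent.N645.TF.src_two, fun A B P hP hd h1 h2 => holds (Pool.Agent.N645.TF.src_one A B P hP hd h1 h2)⟩, ⟨fun ι _ _ q _ η τ s y h => Pool.Agent.N384.VF.flat_pi q η s y h, ?_,
    fun d D hd => Pool.Agent.N384.VF.flat_poly d D hd⟩⟩
  obtain ⟨P₀, h0⟩ := Pool.Agent.N384.MQ.flatK_quot
  exact ⟨P₀, fun p hp _ K hK => ⟨fun R S => h0 p hp K hK R S,
    fun H s hs hc x hx => Pool.Agent.N384.MQ.flatK_coset p H s hs K hK hc x hx,
    fun A B g k hAB => Pool.Agent.N384.MQ.flatK_prod p A B g k K hK hAB⟩⟩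

end Pool.Agent.Results.MP_f5d5f4_nt.ResidueVectors
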